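import Mathlib

/-!
# Elementary asymptotic inequalities
-/

set_option autoImplicit false

open Filter Asymptotics

namespace Pool.Agent.R951.BRW

theorem asym_base (C : ℝ) : ∀ᶠ t : ℕ in atTop,
    C * (√(t : ℝ) * (1 + Real.log t)) ≤ (t : ℝ) ^ (3 / 4 : ℝ) := by
  have h1 : (fun x : ℝ => 1 + Real.log x) =o[atTop] fun x : ℝ => x ^ (1 / 4 : ℝ) := by
    apply IsLittleO.add
    · rw [isLittleO_const_left]
      right
      exact tendsto_norm_atTop_atTop.comp (tendsto_rpow_atTop (by norm_num))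
    · exact isLittleO_log_rpow_atTop (by norm_num)
  have h2 := (h1.comp_tendsto tendsto_natCast_atTop_atTop).bound
    (show (0 : ℝ) < 1 / (|C| + 1) by positivity)
  filter_upwards [h2, eventually_ge_atTop 1] with t ht ht1
  have ht0 : (1 : ℝ) ≤ t := by exact_mod_cast ht1
  simp only [Function.comp_apply] at ht
  have hlog : 0 ≤ Real.log t := Real.log_nonneg ht0
  rw [Real.norm_of_nonneg (by positivity), Real.norm_of_nonneg (by positivity)] at ht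
  have h3 : (t : ℝ) ^ (3 / 4 : ℝ) = √(t : ℝ) * (t : ℝ) ^ (1 / 4 : ℝ) := by
    rw [Real.sqrt_eq_rpow, ← Real.rpow_add (by linarith)]
    norm_num
  rw [h3]
  calc C * (√(t : ℝ) * (1 + Real.log t)) ≤ (|C| + 1) * (√(t : ℝ) * (1 + Real.log t)) := by
        gcongr
        linarith [le_abs_self C]
    _ = √(t : ℝ) * ((|C| + 1) * (1 + Real.log t)) := by ring
    _ ≤ √(t : ℝ) * ((|C| + 1) * (1 / (|C| + 1) * (t : ℝ) ^ (1 / 4 : ℝ))) := by gcongr
    _ = _ := by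
      have : |C| + 1 ≠ 0 := by positivity
      field_simp

theorem sqrt_tendsto : Tendsto Nat.sqrt atTop atTop := by
  apply tendsto_atTop_atTop.2
  intro b
  exact ⟨b * b, fun a ha => Nat.le_sqrt.2 ha⟩

theorem sqrt_mul_le (C : ℕ) : ∀ᶠ t : ℕ in atTop, C * Nat.sqrt t ≤ t := by
  filter_upwards [sqrt_tendsto.eventually_ge_atTop C] with t ht
  calc C * Nat.sqrt t ≤ Nat.sqrt t * Nat.sqrt t := Nat.mul_le_mul_right _ ht
    _ ≤ t := Nat.sqrt_le t

theorem lt_sqrt_sq (t : ℕ) : (t : ℝ) < (Nat.sqrt t + 1 : ℝ) ^ 2 := by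
  have := Nat.lt_succ_sqrt t
  rw [sq]
  exact_mod_cast this

theorem sqrt_le_real (t : ℕ) : (Nat.sqrt t : ℝ) ≤ √(t : ℝ) := by
  apply Real.le_sqrt_of_sq_le
  rw [sq]
  exact_mod_cast Nat.sqrt_le t

theorem asym_exp : ∀ᶠ t : ℕ in atTop, (t : ℝ) * (1 + t) ≤ 2 ^ (Nat.sqrt t) := by
  have h1 : ∀ᶠ L : ℕ in atTop, ((L : ℝ) + 1) ^ 4 ≤ 2 ^ L := by
    have h2 := tendsto_pow_const_div_const_pow_of_one_lt 4 (show (1 : ℝ) < 2 by norm_num)
    have h3 := (h2.eventually (gt_mem_nhds (show (0 : ℝ) < 1 / 16 by norm_num)))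
    filter_upwards [h3, eventually_ge_atTop 1] with L hL hL1
    rw [div_lt_iff₀ (by positivity)] at hL
    have hL1' : (1 : ℝ) ≤ L := by exact_mod_cast hL1
    calc ((L : ℝ) + 1) ^ 4 ≤ (2 * L) ^ 4 := by gcongr; linarith
      _ = 16 * (L : ℝ) ^ 4 := by ring
      _ ≤ 2 ^ L := by linarith
  filter_upwards [sqrt_tendsto.eventually h1] with t ht
  refine le_trans ?_ ht
  have h2 := lt_sqrt_sq t
  have h3 : (1 : ℝ) + t ≤ (Nat.sqrt t + 1 : ℝ) ^ 2 := by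
    have h4 : t + 1 ≤ (Nat.sqrt t + 1) ^ 2 := by
      rw [sq]
      exact Nat.lt_succ_sqrt t
    have h5 : ((t + 1 : ℕ) : ℝ) ≤ (((Nat.sqrt t + 1) ^ 2 : ℕ) : ℝ) := by exact_mod_cast h4
    push_cast at h5
    linarith
  calc (t : ℝ) * (1 + t) ≤ (Nat.sqrt t + 1 : ℝ) ^ 2 * (Nat.sqrt t + 1 : ℝ) ^ 2 := by
        gcongr
    _ = _ := by ring

theorem asym_log (C c : ℝ) (hc : 0 < c) : ∀ᶠ t : ℕ in atTop,
    C * (1 + Real.log t) ≤ c * (t : ℝ) ^ (3 / 4 : ℝ) := by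
  filter_upwards [asym_base (|C| / c), eventually_ge_atTop 1] with t ht ht1
  have ht0 : (1 : ℝ) ≤ t := by exact_mod_cast ht1
  have hlog : 0 ≤ Real.log t := Real.log_nonneg ht0
  have h1 : (1 : ℝ) ≤ √(t : ℝ) := by
    rw [Real.one_le_sqrt]
    exact ht0
  calc C * (1 + Real.log t) ≤ |C| * (√(t : ℝ) * (1 + Real.log t)) := by
        have : 1 + Real.log t ≤ √(t : ℝ) * (1 + Real.log t) :=
          le_mul_of_one_le_left (by positivity) h1
        exact mul_le_mul (le_abs_self C) this (by positivity) (abs_nonneg _)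
    _ = c * (|C| / c * (√(t : ℝ) * (1 + Real.log t))) := by field_simp
    _ ≤ _ := by gcongr

theorem log_two_mul_add_one {t : ℕ} (ht : 1 ≤ t) :
    Real.log (2 * t + 1) ≤ 2 * (1 + Real.log t) := by
  have ht0 : (1 : ℝ) ≤ t := by exact_mod_cast ht
  have hlog : 0 ≤ Real.log t := Real.log_nonneg ht0
  have h1 : Real.log (2 * t + 1) ≤ Real.log (3 * t) := by
    apply Real.log_le_log (by positivity)
    linarith
  rw [Real.log_mul (by norm_num) (by positivity)] at h1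
  have h2 : Real.log 3 ≤ 2 := by
    rw [Real.log_le_iff_le_exp (by norm_num)]
    have := Real.exp_one_gt_d9
    have h3 : Real.exp 2 = Real.exp 1 * Real.exp 1 := by rw [← Real.exp_add]; norm_num
    nlinarith
  linarith

theorem pow_eq_exp (t d : ℕ) : (2 * (t : ℝ) + 1) ^ d = Real.exp (d * Real.log (2 * t + 1)) := by
  rw [← Real.log_pow, Real.exp_log (by positivity)]

/-- Polynomial factors are negligible. -/
theorem asym_sum (d : ℕ) (c : ℝ) (hc : 0 < c) : ∀ᶠ t : ℕ in atTop,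
    (2 * (t : ℝ) + 1) ^ d * Real.exp (-(c * (t : ℝ) ^ (3 / 4 : ℝ))) ≤ 1 / (t : ℝ) ^ 2 := by
  filter_upwards [asym_log (((d + 2 : ℕ) : ℝ) * 2) c hc, eventually_ge_atTop 1] with t ht ht1
  have ht0 : (1 : ℝ) ≤ t := by exact_mod_cast ht1
  rw [le_div_iff₀ (by positivity)]
  have h1 : (t : ℝ) ^ 2 ≤ (2 * (t : ℝ) + 1) ^ 2 := by gcongr; linarith
  calc (2 * (t : ℝ) + 1) ^ d * Real.exp (-(c * (t : ℝ) ^ (3 / 4 : ℝ))) * (t : ℝ) ^ 2
      ≤ (2 * (t : ℝ) + 1) ^ d * Real.exp (-(c * (t : ℝ) ^ (3 / 4 : ℝ))) *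
        (2 * (t : ℝ) + 1) ^ 2 := by gcongr
    _ = (2 * (t : ℝ) + 1) ^ (d + 2) * Real.exp (-(c * (t : ℝ) ^ (3 / 4 : ℝ))) := by ring
    _ = Real.exp ((d + 2 : ℕ) * Real.log (2 * t + 1) + -(c * (t : ℝ) ^ (3 / 4 : ℝ))) := by
        rw [pow_eq_exp, Real.exp_add]
    _ ≤ Real.exp 0 := by
        apply Real.exp_le_exp.2
        have h2 := mul_le_mul_of_nonneg_left (log_two_mul_add_one ht1)
          (Nat.cast_nonneg (α := ℝ) (d + 2))
        linarith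
    _ = 1 := Real.exp_zero

theorem rpow_le_self {t : ℕ} (ht : 1 ≤ t) : (t : ℝ) ^ (3 / 4 : ℝ) ≤ t := by
  have ht0 : (1 : ℝ) ≤ t := by exact_mod_cast ht
  calc (t : ℝ) ^ (3 / 4 : ℝ) ≤ (t : ℝ) ^ (1 : ℝ) :=
        Real.rpow_le_rpow_of_exponent_le ht0 (by norm_num)
    _ = t := Real.rpow_one _

theorem asym_sum' (d : ℕ) (c : ℝ) (hc : 0 < c) : ∀ᶠ t : ℕ in atTop,
    (2 * (t : ℝ) + 1) ^ d * Real.exp (-(c * (t : ℝ))) ≤ 1 / (t : ℝ) ^ 2 := by
  filter_upwards [asym_sum d c hc, eventually_ge_atTop 1] with t ht ht1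
  refine le_trans ?_ ht
  gcongr
  exact rpow_le_self ht1

theorem asym_half : ∀ᶠ t : ℕ in atTop, 3 * (1 / 2 : ℝ) ^ t ≤ 1 / (t : ℝ) ^ 2 := by
  have h2 := tendsto_pow_const_div_const_pow_of_one_lt 2 (show (1 : ℝ) < 2 by norm_num)
  have h3 := (h2.eventually (gt_mem_nhds (show (0 : ℝ) < 1 / 3 by norm_num)))
  filter_upwards [h3, eventually_ge_atTop 1] with t ht ht1
  have ht0 : (1 : ℝ) ≤ t := by exact_mod_cast ht1
  rw [div_lt_iff₀ (by positivity)] at ht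
  rw [le_div_iff₀ (by positivity), one_div, inv_pow]
  rw [mul_right_comm, ← div_eq_mul_inv, div_le_one (by positivity)]
  linarith

/-- The parameter `J` of the blue law. -/
theorem blue_param {n : ℕ} (hn : 1 ≤ n) : ∃ J : ℕ, 8 ^ n < 2 ^ (16 ^ J) ∧
    (n : ℝ) ^ (3 / 4 : ℝ) / 8 ≤ n * (1 / 2 : ℝ) ^ (J + 1) := by
  set a := Nat.log 16 (3 * n) with ha
  refine ⟨a + 1, ?_, ?_⟩
  · have h1 : 3 * n < 16 ^ (a + 1) := Nat.lt_pow_succ_log_self (by norm_num) _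
    calc 8 ^ n = 2 ^ (3 * n) := by rw [pow_mul]; norm_num
      _ < 2 ^ (16 ^ (a + 1)) := Nat.pow_lt_pow_right (by norm_num) h1
  · have h1 : 16 ^ a ≤ 3 * n := Nat.pow_log_le_self 16 (by omega)
    have h2 : (16 : ℝ) ^ a ≤ 3 * n := by exact_mod_cast h1
    have hn0 : (0 : ℝ) < n := by exact_mod_cast hn
    set x : ℝ := (n : ℝ) ^ (1 / 4 : ℝ) with hx
    have hx0 : 0 < x := by positivity
    have hx4 : x ^ 4 = n := by
      rw [hx, ← Real.rpow_natCast, ← Real.rpow_mul hn0.le]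
      norm_num
    have hx3 : (n : ℝ) ^ (3 / 4 : ℝ) = x ^ 3 := by
      rw [hx, ← Real.rpow_natCast, ← Real.rpow_mul hn0.le]
      norm_num
    have h3 : (2 : ℝ) ^ a ≤ 2 * x := by
      have h4 : ((2 : ℝ) ^ a) ^ 4 ≤ (2 * x) ^ 4 := by
        calc ((2 : ℝ) ^ a) ^ 4 = 16 ^ a := by rw [← pow_mul, mul_comm, pow_mul]; norm_num
          _ ≤ 3 * n := h2
          _ ≤ 16 * x ^ 4 := by rw [hx4]; linarith
          _ = (2 * x) ^ 4 := by ring
      exact le_of_pow_le_pow_left₀ (by norm_num) (by positivity) h4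
    rw [hx3, ← hx4]
    have h5 : (1 / 2 : ℝ) ^ (a + 1 + 1) = 1 / (4 * 2 ^ a) := by
      rw [one_div, inv_pow, one_div, pow_succ, pow_succ]
      congr 1
      ring
    rw [h5, mul_one_div, div_le_div_iff₀ (by norm_num) (by positivity)]
    calc x ^ 3 * (4 * 2 ^ a) ≤ x ^ 3 * (4 * (2 * x)) := by gcongr
      _ = x ^ 4 * 8 := by ring

end Pool.Agent.R951.BRW
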