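import Mathlib

/-!
# Branching random walks on `ℤ^d`: definitions

A particle is labelled by the list `[i₁, …, iₙ]` of the birth ranks of its ancestors (oldest first):
it is the `iₙ`-th child of … of the `i₁`-th child of the initial particle, whose label is `[]`.
-/

set_option autoImplicit false

open MeasureTheory Filter
open scoped ENNReal Pointwise

namespace Pool.Agent.R951.BRW

/-- The sites of the lattice `ℤ^d`. -/
abbrev Site (d : ℕ) := Fin d → ℤ

/-- A reproduction law `(μ, ν)`: `μ` is a probability distribution on `{1, 2, …}` with (finite) mean
`> 1`, and `ν` is a probability measure on a finite set `K` of sites which contains the `2d` nearest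
neighbours of the origin and all of whose points have positive mass. -/
structure Law (d : ℕ) where
  /-- the offspring distribution -/
  μ : Measure ℕ
  /-- the displacement distribution -/
  ν : Measure (Site d)
  /-- the support of the displacement distribution -/
  K : Finset (Site d)
  prob_μ : IsProbabilityMeasure μ
  prob_ν : IsProbabilityMeasure ν
  offspring_pos : μ {0} = 0
  mean_finite : Integrable (fun k : ℕ => (k : ℝ)) μ
  mean_gt : 1 < ∫ k : ℕ, (k : ℝ) ∂μ
  neighbours : ∀ i : Fin d, Pi.single i 1 ∈ K ∧ Pi.single i (-1) ∈ K
  ν_compl : ν (K : Set (Site d))ᶜ = 0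
  ν_pos : ∀ y ∈ K, 0 < ν {y}

/-- The sample space of one branching random walk: it assigns to every label a number of children
and the displacement of the `i`-th child relative to its parent, for every `i`. -/
abbrev Omega (d : ℕ) := List ℕ → ℕ × (ℕ → Site d)

variable {d : ℕ}

/-- The law on the sample space: all numbers of children have law `μ`, all displacements have law
`ν`, and all of them are independent. -/
noncomputable def Law.P (R : Law d) : Measure (Omega d) :=
  Measure.infinitePi fun _ : List ℕ => R.μ.prod (Measure.infinitePi fun _ : ℕ => R.ν)

/-- The subtree of the descendants of the `i`-th child of the initial particle. -/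
def sub (ω : Omega d) (i : ℕ) : Omega d := fun u => ω (i :: u)

/-- The particle with label `u` exists: every entry of `u` is smaller than the number of children
of the corresponding ancestor. -/
def Alive : Omega d → List ℕ → Prop
  | _, [] => True
  | ω, i :: u => i < (ω []).1 ∧ Alive (sub ω i) u

/-- The displacement of the particle with label `u` relative to the initial particle. -/
def disp : Omega d → List ℕ → Site d
  | _, [] => 0
  | ω, i :: u => (ω []).2 i + disp (sub ω i) u

/-- `D(n)`: the sites that have received a particle by time `n`, in the branching random walk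
started from one particle at the site `x₀` at time `0`. -/
def visited (ω : Omega d) (x₀ : Site d) (n : ℕ) : Set (Site d) :=
  {x | ∃ u : List ℕ, Alive ω u ∧ u.length ≤ n ∧ x₀ + disp ω u = x}

/-- The first time at which the site `x` receives a particle (`⊤` if this never happens), in the
branching random walk started from one particle at the site `x₀` at time `0`. -/
noncomputable def hit (ω : Omega d) (x₀ x : Site d) : ℕ∞ :=
  ⨅ u : {u : List ℕ // Alive ω u ∧ x₀ + disp ω u = x}, (u.1.length : ℕ∞)

/-- The union of the half-open unit cubes centred at the sites of `D`. -/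
def cubes (D : Set (Site d)) : Set (Fin d → ℝ) :=
  {y | ∃ x ∈ D, ∀ i, (x i : ℝ) - 1 / 2 < y i ∧ y i ≤ x i + 1 / 2}

/-- `A` is the asymptotic shape of the branching random walk with law `R`: it is convex, compact and
contains `0` in its interior, and almost surely, for every `ε ∈ (0, 1)`,
`(1 - ε) A ⊆ D̄(n) / n ⊆ (1 + ε) A` for all large `n`. -/
structure IsShape (R : Law d) (A : Set (Fin d → ℝ)) : Prop where
  convex : Convex ℝ A
  compact : IsCompact A
  zero_mem : 0 ∈ interior A
  shape : ∀ᵐ ω ∂(R.P), ∀ ε : ℝ, 0 < ε → ε < 1 → ∀ᶠ n : ℕ in atTop,
    (1 - ε) • A ⊆ (1 / (n : ℝ)) • cubes (visited ω 0 n) ∧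
      (1 / (n : ℝ)) • cubes (visited ω 0 n) ⊆ (1 + ε) • A

/-! ### Two types, at `p = 0` -/

/-- The site `e₁`. -/
def e₁ (hd : 0 < d) : Site d := Pi.single ⟨0, hd⟩ 1

/-- The sites coloured red: those that a red particle (red starts at `0`) reaches strictly before
all blue ones (blue starts at `e₁`), and those that are reached by both colours for the first time
simultaneously and are given to red by the tie-breaking rule. -/
def redSites (hd : 0 < d) (tie : Omega d × Omega d → Site d → Prop) (ω : Omega d × Omega d) :
    Set (Site d) :=
  {x | hit ω.1 0 x < hit ω.2 (e₁ hd) x ∨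
    (hit ω.1 0 x = hit ω.2 (e₁ hd) x ∧ hit ω.1 0 x ≠ ⊤ ∧ tie ω x)}

/-- The sites coloured blue: those that a blue particle reaches strictly before all red ones, and
those that are reached by both colours for the first time simultaneously and are given to blue by
the tie-breaking rule. -/
def blueSites (hd : 0 < d) (tie : Omega d × Omega d → Site d → Prop) (ω : Omega d × Omega d) :
    Set (Site d) :=
  {x | hit ω.2 (e₁ hd) x < hit ω.1 0 x ∨
    (hit ω.1 0 x = hit ω.2 (e₁ hd) x ∧ hit ω.1 0 x ≠ ⊤ ∧ ¬ tie ω x)}

/-- The law `ℙ₀` of the two-type process: independent red and blue branching random walks. -/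
noncomputable def P₀ (Rr Rb : Law d) : Measure (Omega d × Omega d) := Rr.P.prod Rb.P

/-- Coexistence: infinitely many sites are coloured red and infinitely many are coloured blue. -/
def Coexistence (hd : 0 < d) (tie : Omega d × Omega d → Site d → Prop) :
    Set (Omega d × Omega d) :=
  {ω | (redSites hd tie ω).Infinite ∧ (blueSites hd tie ω).Infinite}

end Pool.Agent.R951.BRW
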