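import Pool.Agent.R951.BRW.Walk

/-!
# Lower bounds for the probability that a site is occupied

Everything in this file follows from the one-step recursion for these probabilities.
-/

set_option autoImplicit false

open Finset

namespace Pool.Agent.R951.BRW

variable {d : ℕ}

/-- The properties of the probabilities `u n x` that some particle of generation `n` has
displacement `x` that are used for lower bounds. -/
structure Growth (m M : ℝ) (u : ℕ → Site d → ℝ) : Prop where
  nonneg : ∀ n x, 0 ≤ u n x
  le_one : ∀ n x, u n x ≤ 1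
  zero : u 0 0 = 1
  step : ∀ n x, m * avg (u n) x / (1 + M * avg (u n) x) ≤ u (n + 1) x
  double : ∀ n x, 1 - u (n + 1) x ≤ (1 - avg (u n) x) ^ 2

theorem W_le_one (n : ℕ) (x : Site d) : W n x ≤ 1 := by
  induction n generalizing x with
  | zero => unfold W; split_ifs <;> norm_num
  | succ n ih => exact avg_le_one ih

theorem frac_mono {m M s t : ℝ} (hm : 0 ≤ m) (hM : 0 ≤ M) (hs : 0 ≤ s) (hst : s ≤ t) :
    m * s / (1 + M * s) ≤ m * t / (1 + M * t) := by
  have h1 : 0 < 1 + M * s := by positivity
  have h2 : 0 < 1 + M * t := by have := hs.trans hst; positivity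
  rw [div_le_div_iff₀ h1 h2]
  nlinarith [mul_nonneg hm hM]

theorem block {m M : ℝ} {u : ℕ → Site d → ℝ} (hu : Growth m M u) (hm : 0 ≤ m) (hmM : m ≤ M)
    (hM : 1 ≤ M) (N : ℕ) (x₀ : Site d) (p : ℝ) (hp : 0 ≤ p) (hp2 : p ≤ u N x₀) (n : ℕ)
    (x : Site d) :
    p * (m ^ n * W n x) / (1 + p * (n * M ^ n)) ≤ u (N + n) (x₀ + x) := by
  induction n generalizing x with
  | zero =>
    simp only [pow_zero, one_mul, Nat.cast_zero, zero_mul, mul_zero, add_zero, div_one]
    by_cases hx : x = 0
    · subst hx
      simp [W, hp2]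
    · simp only [W, if_neg hx, mul_zero]
      exact hu.nonneg _ _
  | succ n ih =>
    have hA : 0 < 1 + p * (n * M ^ n) := by positivity
    have h1 : p * m ^ n / (1 + p * (n * M ^ n)) * W (n + 1) x ≤ avg (u (N + n)) (x₀ + x) := by
      have h2 : p * m ^ n / (1 + p * (n * M ^ n)) * W (n + 1) x =
          avg (fun y => p * m ^ n / (1 + p * (n * M ^ n)) * W n y) x := by
        rw [avg_smul]; rfl
      rw [h2]
      unfold avg
      apply sum_le_sum
      intro y _
      apply mul_le_mul_of_nonneg_left _ (wt_pos y).le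
      have h3 := ih (x - y)
      rw [show x₀ + (x - y) = x₀ + x - y by abel] at h3
      refine le_trans (le_of_eq ?_) h3
      ring
    have hW : 0 ≤ W (n + 1) x := W_nonneg _ _
    have hW1 : W (n + 1) x ≤ 1 := W_le_one _ _
    have h4 := hu.step (N + n) (x₀ + x)
    rw [show N + n + 1 = N + (n + 1) by ring] at h4
    refine le_trans ?_ h4
    refine le_trans ?_ (frac_mono hm (by linarith) (by positivity) h1)
    have h5 : m * (p * m ^ n / (1 + p * (n * M ^ n)) * W (n + 1) x) /
        (1 + M * (p * m ^ n / (1 + p * (n * M ^ n)) * W (n + 1) x)) =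
        p * (m ^ (n + 1) * W (n + 1) x) /
          (1 + p * (n * M ^ n) + M * (p * m ^ n * W (n + 1) x)) := by
      field_simp
      ring
    rw [h5]
    apply div_le_div_of_nonneg_left
    · positivity
    · have : 0 ≤ M := by linarith
      positivity
    · have h6 : m ^ n ≤ M ^ n := pow_le_pow_left₀ hm hmM n
      have h7 : m ^ n * W (n + 1) x ≤ M ^ n := by
        calc m ^ n * W (n + 1) x ≤ M ^ n * 1 := by gcongr
          _ = M ^ n := mul_one _
      have h8 : (n : ℝ) * M ^ n ≤ n * M ^ (n + 1) := by
        gcongr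
        · omega
      have h9 : M * (m ^ n * W (n + 1) x) ≤ M ^ (n + 1) := by
        rw [pow_succ', mul_comm M (M ^ n), mul_comm M]
        exact mul_le_mul_of_nonneg_right h7 (by linarith)
      push_cast
      have h10 : M * (m ^ n * W (n + 1) x) + n * M ^ n ≤ (n + 1) * M ^ (n + 1) := by linarith
      have h11 := mul_le_mul_of_nonneg_left h10 hp
      linarith

/-- A chain of blocks. -/
theorem chain {m M : ℝ} {u : ℕ → Site d → ℝ} (hu : Growth m M u) (hm : 0 ≤ m) (hmM : m ≤ M)
    (hM : 1 ≤ M) (L : ℕ) (k : ℕ) :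
    ∀ s : Multiset (Site d), Multiset.card s = k → (∀ w ∈ s, 0 < m ^ L * W L w) →
      1 ≤ (1 + k * (L * M ^ L)) * max 1 ((s.map fun w => m ^ L * W L w).prod)⁻¹ *
        u (k * L) s.sum := by
  set f : Site d → ℝ := fun w => m ^ L * W L w with hf
  set B : ℝ := L * M ^ L with hB
  have hB0 : 0 ≤ B := by positivity
  show ∀ s : Multiset (Site d), Multiset.card s = k → (∀ w ∈ s, 0 < f w) →
      1 ≤ (1 + k * B) * max 1 ((s.map f).prod)⁻¹ * u (k * L) s.sum
  clear_value f B
  induction k with
  | zero =>
    intro s hs _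
    rw [Multiset.card_eq_zero] at hs
    subst hs
    simp [hu.zero]
  | succ k ih =>
    intro s hs hpos
    have hne : s ≠ 0 := by
      rintro rfl
      simp at hs
    classical
    obtain ⟨w, hw, hmax⟩ : ∃ w ∈ s, ∀ w' ∈ s, f w' ≤ f w := by
      have hne' : s.toFinset.Nonempty := by
        rw [Multiset.toFinset_nonempty]
        exact hne
      obtain ⟨w, hw, hm⟩ := exists_max_image s.toFinset f hne'
      exact ⟨w, by simpa using hw, fun w' hw' => hm w' (by simpa using hw')⟩
    obtain ⟨s', rfl⟩ := Multiset.exists_cons_of_mem hw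
    rw [Multiset.card_cons] at hs
    have hs' : Multiset.card s' = k := by omega
    have hpos' : ∀ w ∈ s', 0 < f w := fun w hw => hpos w (Multiset.mem_cons_of_mem hw)
    have IH := ih s' hs' hpos'
    set Q' : ℝ := max 1 ((s'.map f).prod)⁻¹ with hQ'
    have hfw : 0 < f w := hpos w hw
    have hprod' : 0 < (s'.map f).prod := by
      apply Multiset.prod_pos
      intro a ha
      rw [Multiset.mem_map] at ha
      obtain ⟨b, hb, rfl⟩ := ha
      exact hpos' b hb
    rw [Multiset.map_cons, Multiset.prod_cons, Multiset.sum_cons]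
    set Q : ℝ := max 1 (f w * (s'.map f).prod)⁻¹ with hQ
    have hQ1 : 1 ≤ Q := le_max_left _ _
    have hQ1' : 1 ≤ Q' := le_max_left _ _
    -- the two bounds for `Q`
    have key : (f w)⁻¹ * Q' ≤ Q ∧ (f w)⁻¹ ≤ Q := by
      by_cases h1 : 1 ≤ f w
      · have h2 : (f w)⁻¹ ≤ 1 := inv_le_one_of_one_le₀ h1
        refine ⟨?_, h2.trans hQ1⟩
        rw [hQ', hQ, mul_inv, mul_max_of_nonneg _ _ (inv_nonneg.2 hfw.le), mul_one]
        exact max_le_max h2 le_rfl
      · push Not at h1
        have h3 : (s'.map f).prod ≤ 1 := by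
          have : ∀ t : Multiset (Site d), (∀ w' ∈ t, 0 < f w' ∧ f w' ≤ 1) →
              (t.map f).prod ≤ 1 := by
            intro t
            induction t using Multiset.induction with
            | empty => simp
            | cons a t iht =>
              intro h
              rw [Multiset.map_cons, Multiset.prod_cons]
              have e1 := h a (Multiset.mem_cons_self _ _)
              have e2 := iht fun w' hw' => h w' (Multiset.mem_cons_of_mem hw')
              have e3 : 0 ≤ (t.map f).prod := by
                apply Multiset.prod_nonneg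
                intro b hb
                rw [Multiset.mem_map] at hb
                obtain ⟨c, hc, rfl⟩ := hb
                exact (h c (Multiset.mem_cons_of_mem hc)).1.le
              exact mul_le_one₀ e1.2 e3 e2
          exact this s' fun w' hw' =>
            ⟨hpos' w' hw', (hmax w' (Multiset.mem_cons_of_mem hw')).trans h1.le⟩
        have h4 : 1 ≤ ((s'.map f).prod)⁻¹ := (one_le_inv₀ hprod').2 h3
        have h5 : Q' = ((s'.map f).prod)⁻¹ := max_eq_right h4
        have h6 : (f w)⁻¹ * Q' = (f w * (s'.map f).prod)⁻¹ := by rw [h5, mul_inv]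
        refine ⟨?_, ?_⟩
        · rw [h6]
          exact le_max_right _ _
        · calc (f w)⁻¹ ≤ (f w)⁻¹ * Q' := le_mul_of_one_le_right (inv_nonneg.2 hfw.le) hQ1'
            _ = (f w * (s'.map f).prod)⁻¹ := h6
            _ ≤ Q := le_max_right _ _
    set p := u (k * L) s'.sum with hp
    have hp0 : 0 < p := by
      by_contra hc
      have : p = 0 := le_antisymm (not_lt.1 hc) (hu.nonneg _ _)
      rw [this, mul_zero] at IH
      linarith
    have hb := block hu hm hmM hM (k * L) s'.sum p hp0.le le_rfl L w
    rw [← hB, ← congrFun hf w] at hb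
    rw [show (k + 1) * L = k * L + L by ring, add_comm w s'.sum]
    refine le_trans ?_ (mul_le_mul_of_nonneg_left hb (by positivity))
    have hden : 0 < 1 + p * B := by positivity
    show 1 ≤ (1 + ((k + 1 : ℕ) : ℝ) * B) * Q * (p * f w / (1 + p * B))
    rw [← mul_div_assoc, one_le_div hden]
    -- `1 + p B ≤ (1 + (k + 1) B) Q p f(w)`
    have h7 : 1 ≤ (1 + k * B) * Q * (p * f w) := by
      have h8 : (1 + k * B) * Q' * p ≤ (1 + k * B) * (Q * f w) * p := by
        have : Q' ≤ Q * f w := by
          have := mul_le_mul_of_nonneg_left key.1 hfw.le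
          rw [← mul_assoc, mul_inv_cancel₀ hfw.ne', one_mul] at this
          linarith
        gcongr
      linarith [IH]
    have h9 : p * B ≤ B * Q * (p * f w) := by
      have : 1 ≤ Q * f w := by
        have := mul_le_mul_of_nonneg_left key.2 hfw.le
        rw [mul_inv_cancel₀ hfw.ne'] at this
        linarith
      nlinarith [mul_nonneg hp0.le hB0]
    push_cast
    linarith

theorem pigeonhole {m : ℝ} (hm : 0 < m) (L k : ℕ) (x : Site d) (hx : 0 < W (k * L) x) :
    ∃ s : Multiset (Site d), Multiset.card s = k ∧ s.sum = x ∧ (∀ w ∈ s, 0 < m ^ L * W L w) ∧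
      m ^ (k * L) * W (k * L) x ≤
        ((2 * L + 1 : ℝ) ^ d) ^ k * (s.map fun w => m ^ L * W L w).prod := by
  induction k generalizing x with
  | zero =>
    have h0 : x = 0 := by
      by_contra h
      rw [zero_mul] at hx
      simp [W, h] at hx
    subst h0
    refine ⟨0, rfl, rfl, by simp, ?_⟩
    simp [W]
  | succ k ih =>
    rw [show (k + 1) * L = L + k * L by ring] at hx ⊢
    rw [W_add] at hx ⊢
    have hne : (box d L).Nonempty := ⟨0, mem_box.2 (by simp)⟩
    obtain ⟨z, hz, hmax⟩ := exists_max_image (box d L) (fun z => W L z * W (k * L) (x - z)) hne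
    have h1 : ∑ z ∈ box d L, W L z * W (k * L) (x - z) ≤
        (2 * L + 1 : ℝ) ^ d * (W L z * W (k * L) (x - z)) := by
      have h2 := sum_le_card_nsmul _ _ _ hmax
      rw [card_box, nsmul_eq_mul] at h2
      push_cast at h2
      exact h2
    have h3 : 0 < W L z * W (k * L) (x - z) := by
      by_contra hc
      push Not at hc
      have : (2 * L + 1 : ℝ) ^ d * (W L z * W (k * L) (x - z)) ≤ 0 :=
        mul_nonpos_of_nonneg_of_nonpos (by positivity) hc
      linarith
    have h4 : 0 < W L z := lt_of_le_of_ne (W_nonneg _ _) (fun h => by simp [← h] at h3)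
    have h5 : 0 < W (k * L) (x - z) :=
      lt_of_le_of_ne (W_nonneg _ _) (fun h => by simp [← h] at h3)
    obtain ⟨s, hs1, hs2, hs3, hs4⟩ := ih (x - z) h5
    refine ⟨z ::ₘ s, by simp [hs1], by simp [hs2], ?_, ?_⟩
    · intro w hw
      rw [Multiset.mem_cons] at hw
      rcases hw with rfl | hw
      · positivity
      · exact hs3 w hw
    · rw [Multiset.map_cons, Multiset.prod_cons]
      calc m ^ (L + k * L) * ∑ z ∈ box d L, W L z * W (k * L) (x - z)
          ≤ m ^ (L + k * L) * ((2 * L + 1 : ℝ) ^ d * (W L z * W (k * L) (x - z))) := by gcongr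
        _ = (2 * L + 1 : ℝ) ^ d * (m ^ L * W L z) * (m ^ (k * L) * W (k * L) (x - z)) := by ring
        _ ≤ (2 * L + 1 : ℝ) ^ d * (m ^ L * W L z) * (((2 * L + 1 : ℝ) ^ d) ^ k *
            (s.map fun w => m ^ L * W L w).prod) := by gcongr
        _ = _ := by ring

/-- If the expected number of particles at a site is large enough, then the site is occupied with a
probability that is not too small. -/
theorem occupied_lower {m M : ℝ} {u : ℕ → Site d → ℝ} (hu : Growth m M u) (hm : 0 < m)
    (hmM : m ≤ M) (hM : 1 ≤ M) (L k : ℕ) (x : Site d)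
    (hx : ((2 * L + 1 : ℝ) ^ d) ^ k ≤ m ^ (k * L) * W (k * L) x) :
    (1 + k * (L * M ^ L))⁻¹ ≤ u (k * L) x := by
  have hx0 : 0 < W (k * L) x := by
    have h1 : (0 : ℝ) < ((2 * L + 1 : ℝ) ^ d) ^ k := by positivity
    have h2 := h1.trans_le hx
    by_contra hc
    have : W (k * L) x = 0 := le_antisymm (not_lt.1 hc) (W_nonneg _ _)
    rw [this, mul_zero] at h2
    exact lt_irrefl _ h2
  obtain ⟨s, hs1, hs2, hs3, hs4⟩ := pigeonhole hm L k x hx0
  have h1 := chain hu hm.le hmM hM L k s hs1 hs3
  have h2 : 1 ≤ (s.map fun w => m ^ L * W L w).prod := by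
    have h3 : (0 : ℝ) < ((2 * L + 1 : ℝ) ^ d) ^ k := by positivity
    have h4 := hx.trans hs4
    by_contra hc
    push Not at hc
    nlinarith
  have h3 : max 1 ((s.map fun w => m ^ L * W L w).prod)⁻¹ = 1 :=
    max_eq_left (inv_le_one_of_one_le₀ h2)
  rw [h3, mul_one, hs2] at h1
  rw [inv_le_iff_one_le_mul₀ (by positivity)]
  linarith

/-- Amplification: after `s` more generations the initial particle has at least `2 ^ s`
descendants, each of which may start a successful subtree. -/
theorem amplify {m M : ℝ} {u : ℕ → Site d → ℝ} (hu : Growth m M u) (N : ℕ) (x : Site d) (p : ℝ)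
    (s : ℕ) (h : ∀ y : Site d, (∀ i, |y i| ≤ (s : ℤ)) → p ≤ u N (x + y)) :
    1 - u (N + s) x ≤ (1 - p) ^ (2 ^ s) := by
  have key : ∀ j : ℕ, j ≤ s → ∀ y : Site d, (∀ i, |y i| ≤ (s : ℤ) - j) →
      1 - u (N + j) (x + y) ≤ (1 - p) ^ (2 ^ j) := by
    intro j
    induction j with
    | zero =>
      intro _ y hy
      simp only [pow_zero, pow_one, add_zero]
      have := h y (by simpa using hy)
      linarith
    | succ j ih =>
      intro hj y hy
      have h1 := hu.double (N + j) (x + y)
      rw [show N + j + 1 = N + (j + 1) by ring] at h1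
      have h2 : 1 - avg (u (N + j)) (x + y) ≤ (1 - p) ^ (2 ^ j) := by
        rw [← avg_one_sub, ← avg_const ((1 - p) ^ (2 ^ j)) (x + y)]
        apply avg_mono
        intro z hz
        rw [mem_steps] at hz
        have h3 := ih (by omega) (y - z) (by
          intro i
          have e1 := hy i
          have e2 := hz i
          rw [Pi.sub_apply]
          rw [abs_le] at *
          push_cast at *
          constructor <;> linarith [e1.1, e1.2, e2.1, e2.2])
        rw [show x + y - z = x + (y - z) by abel]
        exact h3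
      have h3 : 0 ≤ 1 - avg (u (N + j)) (x + y) := by
        have := avg_le_one (g := u (N + j)) (x := x + y) (fun y => hu.le_one _ _)
        linarith
      calc 1 - u (N + (j + 1)) (x + y) ≤ (1 - avg (u (N + j)) (x + y)) ^ 2 := h1
        _ ≤ ((1 - p) ^ (2 ^ j)) ^ 2 := pow_le_pow_left₀ h3 h2 2
        _ = (1 - p) ^ (2 ^ (j + 1)) := by rw [← pow_mul, pow_succ]
  have := key s le_rfl 0 (by simp)
  simpa using this

end Pool.Agent.R951.BRW
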