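import Pool.Agent.R951.BRW.Walk

/-!
# Explicit formula and estimates for the kernel
-/

set_option autoImplicit false

open Finset

namespace Pool.Agent.R951.BRW

variable {d : ℕ}

/-- Binomial coefficients with an integer lower index. -/
def cz (N : ℕ) (j : ℤ) : ℕ := if 0 ≤ j then N.choose j.toNat else 0

theorem cz_natCast (N j : ℕ) : cz N (j : ℤ) = N.choose j := by
  unfold cz
  rw [if_pos (Int.natCast_nonneg j)]
  simp

theorem cz_neg {N : ℕ} {j : ℤ} (h : j < 0) : cz N j = 0 := by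
  unfold cz
  rw [if_neg (by omega)]

theorem cz_succ (N : ℕ) (j : ℤ) : cz (N + 1) j = cz N j + cz N (j - 1) := by
  rcases lt_trichotomy j 0 with h | h | h
  · rw [cz_neg h, cz_neg h, cz_neg (by omega)]
  · subst h
    have h1 : cz (N + 1) ((0 : ℕ) : ℤ) = 1 := by rw [cz_natCast]; simp
    have h2 : cz N ((0 : ℕ) : ℤ) = 1 := by rw [cz_natCast]; simp
    simp only [Nat.cast_zero] at h1 h2
    rw [h1, h2, cz_neg (by omega)]
  · obtain ⟨i, rfl⟩ : ∃ i : ℕ, j = ((i + 1 : ℕ) : ℤ) := ⟨(j - 1).toNat, by omega⟩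
    rw [cz_natCast, cz_natCast, show ((i + 1 : ℕ) : ℤ) - 1 = (i : ℤ) by push_cast; ring,
      cz_natCast, Nat.choose_succ_succ]
    simp only [Nat.succ_eq_add_one]
    ring

/-- The kernel of one coordinate. -/
noncomputable def b (n : ℕ) (k : ℤ) : ℝ := cz (2 * n) (n + k) / 4 ^ n

theorem b_zero (k : ℤ) : b 0 k = if k = 0 then 1 else 0 := by
  unfold b
  simp only [mul_zero, Nat.cast_zero, zero_add, pow_zero, div_one]
  rcases lt_trichotomy k 0 with h | h | h
  · rw [cz_neg h, if_neg (by omega)]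
    simp
  · subst h
    have h1 : cz 0 ((0 : ℕ) : ℤ) = 1 := by rw [cz_natCast]; simp
    simp only [Nat.cast_zero] at h1
    rw [h1]
    simp
  · obtain ⟨i, rfl⟩ : ∃ i : ℕ, k = ((i + 1 : ℕ) : ℤ) := ⟨(k - 1).toNat, by omega⟩
    rw [cz_natCast, if_neg (by omega)]
    simp

theorem b_nonneg (n : ℕ) (k : ℤ) : 0 ≤ b n k := by unfold b; positivity

theorem b_succ (n : ℕ) (k : ℤ) :
    b (n + 1) k = ∑ j ∈ ({-1, 0, 1} : Finset ℤ), w₁ j * b n (k - j) := by
  rw [sum_insert (by decide), sum_insert (by decide), sum_singleton]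
  unfold b w₁
  rw [show 2 * (n + 1) = 2 * n + 1 + 1 by ring, cz_succ, cz_succ, cz_succ]
  rw [show ((n + 1 : ℕ) : ℤ) + k = n + k + 1 by push_cast; ring,
    show (n : ℤ) + k + 1 - 1 = n + k by ring,
    show (n : ℤ) + (k - -1) = n + k + 1 by ring, show (n : ℤ) + (k - 0) = n + k by ring,
    show (n : ℤ) + (k - 1) = n + k - 1 by ring]
  norm_num
  field_simp
  ring

/-- The kernel is a product of binomial probabilities. -/
theorem W_eq (n : ℕ) (x : Site d) : W n x = ∏ i, b n (x i) := by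
  induction n generalizing x with
  | zero =>
    simp only [W, b_zero]
    by_cases hx : x = 0
    · subst hx
      simp
    · rw [if_neg hx]
      obtain ⟨i, hi⟩ := Function.ne_iff.1 hx
      rw [prod_eq_zero (mem_univ i)]
      rw [if_neg (by simpa using hi)]
  | succ n ih =>
    show avg (W n) x = _
    unfold avg steps wt
    simp only [ih, b_succ]
    rw [prod_univ_sum]
    apply sum_congr rfl
    intro y _
    rw [← prod_mul_distrib]
    rfl

/-- `C(N, j) j^j (N - j)^(N - j) ≤ N^N`. -/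
theorem choose_upper (j l : ℕ) : (j + l).choose j * (j ^ j * l ^ l) ≤ (j + l) ^ (j + l) := by
  rw [add_pow]
  have h := single_le_sum (f := fun i => j ^ i * l ^ (j + l - i) * (j + l).choose i)
    (s := range (j + l + 1)) (fun i _ => Nat.zero_le _) (mem_range.2 (show j < j + l + 1 by omega))
  simp only [Nat.add_sub_cancel_left] at h
  linarith

theorem mode_step (j l i : ℕ) (h : i < j) :
    j ^ i * l ^ (j + l - i) * (j + l).choose i ≤
      j ^ (i + 1) * l ^ (j + l - (i + 1)) * (j + l).choose (i + 1) := by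
  obtain ⟨c, rfl⟩ : ∃ c, j = i + 1 + c := ⟨j - i - 1, by omega⟩
  have e1 : i + 1 + c + l - i = (c + l) + 1 := by omega
  have e2 : i + 1 + c + l - (i + 1) = c + l := by omega
  rw [e1, e2]
  have h1 := Nat.choose_succ_right_eq (i + 1 + c + l) i
  rw [show i + 1 + c + l - i = c + l + 1 by omega] at h1
  -- `C(N, i+1) (i+1) = C(N, i) (c + l + 1)`
  have h2 : l * (i + 1) ≤ (i + 1 + c) * (c + l + 1) := by nlinarith [Nat.zero_le c, Nat.zero_le l]
  have h3 : l * (i + 1 + c + l).choose i * (i + 1) ≤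
      (i + 1 + c) * (i + 1 + c + l).choose (i + 1) * (i + 1) := by
    calc l * (i + 1 + c + l).choose i * (i + 1) = (i + 1 + c + l).choose i * (l * (i + 1)) := by
          ring
      _ ≤ (i + 1 + c + l).choose i * ((i + 1 + c) * (c + l + 1)) := Nat.mul_le_mul_left _ h2
      _ = (i + 1 + c) * ((i + 1 + c + l).choose i * (c + l + 1)) := by ring
      _ = _ := by rw [← h1]; ring
  have h4 := Nat.le_of_mul_le_mul_right h3 (Nat.succ_pos i)
  calc (i + 1 + c) ^ i * l ^ (c + l + 1) * (i + 1 + c + l).choose i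
      = (i + 1 + c) ^ i * l ^ (c + l) * (l * (i + 1 + c + l).choose i) := by ring
    _ ≤ (i + 1 + c) ^ i * l ^ (c + l) * ((i + 1 + c) * (i + 1 + c + l).choose (i + 1)) :=
        Nat.mul_le_mul_left _ h4
    _ = _ := by ring

theorem mode_le (j l : ℕ) (i : ℕ) (h : i ≤ j) :
    j ^ i * l ^ (j + l - i) * (j + l).choose i ≤ j ^ j * l ^ l * (j + l).choose j := by
  obtain ⟨c, hc⟩ : ∃ c, j = i + c := ⟨j - i, by omega⟩
  induction c generalizing i with
  | zero =>
    have : i = j := by omega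
    subst this
    simp
  | succ c ih => exact (mode_step j l i (by omega)).trans (ih (i + 1) (by omega) (by omega))

/-- `N^N ≤ (N + 1) C(N, j) j^j (N - j)^(N - j)`. -/
theorem choose_lower (j l : ℕ) :
    (j + l) ^ (j + l) ≤ (j + l + 1) * ((j + l).choose j * (j ^ j * l ^ l)) := by
  rw [add_pow]
  have h := sum_le_card_nsmul (range (j + l + 1))
    (fun i => j ^ i * l ^ (j + l - i) * (j + l).choose i)
    ((j + l).choose j * (j ^ j * l ^ l)) ?_
  · rwa [card_range, smul_eq_mul] at h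
  · intro i hi
    rw [mem_range] at hi
    rw [mul_comm ((j + l).choose j)]
    by_cases hij : i ≤ j
    · exact mode_le j l i hij
    · have h1 := mode_le l j (j + l - i) (by omega)
      have e1 : l + j - (j + l - i) = i := by omega
      rw [e1, add_comm l j, Nat.choose_symm (by omega),
        ← Nat.choose_symm_of_eq_add (show j + l = j + l from rfl)] at h1
      calc j ^ i * l ^ (j + l - i) * (j + l).choose i
          = l ^ (j + l - i) * j ^ i * (j + l).choose i := by ring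
        _ ≤ l ^ l * j ^ j * (j + l).choose j := h1
        _ = _ := by ring

/-- The rate function of one coordinate. -/
noncomputable def I (v : ℝ) : ℝ := (1 + v) * Real.log (1 + v) + (1 - v) * Real.log (1 - v)

theorem I_neg (v : ℝ) : I (-v) = I v := by
  unfold I
  rw [sub_neg_eq_add, ← sub_eq_add_neg, add_comm]

theorem exp_rate {n j l : ℕ} (hn : 0 < n) (hjl : j + l = 2 * n) :
    Real.exp (n * I (((j : ℝ) - n) / n)) * (n : ℝ) ^ (2 * n) = (j : ℝ) ^ j * (l : ℝ) ^ l := by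
  have hn' : (n : ℝ) ≠ 0 := by positivity
  have hl : (l : ℝ) = 2 * n - j := by
    have : (j : ℝ) + l = 2 * n := by exact_mod_cast hjl
    linarith
  have key : ∀ a : ℕ, Real.exp (a * Real.log (a / n)) * (n : ℝ) ^ a = (a : ℝ) ^ a := by
    intro a
    rcases Nat.eq_zero_or_pos a with rfl | ha
    · simp
    · have ha' : (0 : ℝ) < a := by exact_mod_cast ha
      rw [← Real.rpow_natCast ((n : ℝ)) a, ← Real.rpow_natCast (a : ℝ) a,
        Real.rpow_def_of_pos (by positivity), Real.rpow_def_of_pos ha', ← Real.exp_add,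
        Real.log_div ha'.ne' hn']
      congr 1
      ring
  have h1 : (n : ℝ) * I (((j : ℝ) - n) / n) = j * Real.log (j / n) + l * Real.log (l / n) := by
    unfold I
    have e1 : 1 + ((j : ℝ) - n) / n = j / n := by field_simp; ring
    have e2 : 1 - ((j : ℝ) - n) / n = l / n := by rw [hl]; field_simp; ring
    rw [e1, e2]
    field_simp
  rw [h1, Real.exp_add, ← hjl, pow_add]
  rw [show Real.exp (j * Real.log (j / n)) * Real.exp (l * Real.log (l / n)) *
    ((n : ℝ) ^ j * (n : ℝ) ^ l) = (Real.exp (j * Real.log (j / n)) * (n : ℝ) ^ j) *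
    (Real.exp (l * Real.log (l / n)) * (n : ℝ) ^ l) by ring, key, key]

theorem b_bounds {n : ℕ} (hn : 0 < n) {k : ℤ} (hk : |k| ≤ n) :
    b n k ≤ Real.exp (-(n * I (k / n))) ∧
      Real.exp (-(n * I (k / n))) / (2 * n + 1) ≤ b n k := by
  rw [abs_le] at hk
  obtain ⟨j, hj⟩ : ∃ j : ℕ, (n : ℤ) + k = j := ⟨(n + k).toNat, by omega⟩
  obtain ⟨l, hl⟩ : ∃ l : ℕ, (n : ℤ) - k = l := ⟨(n - k).toNat, by omega⟩
  have hjl : j + l = 2 * n := by omega
  have hk' : (k : ℝ) = j - n := by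
    have : ((n : ℤ) + k : ℤ) = j := hj
    have h2 : ((n : ℝ) + k) = j := by exact_mod_cast this
    linarith
  have h1 := exp_rate hn hjl
  have hE := Real.exp_pos (n * I (((j : ℝ) - n) / n))
  have hb : b n k = (2 * n).choose j / 4 ^ n := by
    unfold b
    rw [hj, cz_natCast]
  have hnn : (0 : ℝ) < (n : ℝ) ^ (2 * n) := by positivity
  have h4 : (4 : ℝ) ^ n * (n : ℝ) ^ (2 * n) = (2 * n : ℝ) ^ (2 * n) := by
    rw [mul_pow, pow_mul 2 2 n]
    norm_num
  have hu := choose_upper j l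
  have hlo := choose_lower j l
  rw [hjl] at hu hlo
  have hu' : ((2 * n).choose j : ℝ) * ((j : ℝ) ^ j * (l : ℝ) ^ l) ≤ (2 * n : ℝ) ^ (2 * n) := by
    exact_mod_cast hu
  have hlo' : (2 * n : ℝ) ^ (2 * n) ≤
      (2 * n + 1) * (((2 * n).choose j : ℝ) * ((j : ℝ) ^ j * (l : ℝ) ^ l)) := by
    exact_mod_cast hlo
  rw [← h1, ← h4] at hu' hlo'
  rw [hb, hk', Real.exp_neg]
  have h4n : (0 : ℝ) < 4 ^ n := by positivity
  constructor
  · rw [div_le_iff₀ h4n, inv_mul_eq_div, le_div_iff₀ hE]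
    have h5 : ((2 * n).choose j : ℝ) * Real.exp (n * I (((j : ℝ) - n) / n)) *
        (n : ℝ) ^ (2 * n) ≤ 4 ^ n * (n : ℝ) ^ (2 * n) := by linarith
    exact le_of_mul_le_mul_right h5 hnn
  · rw [div_le_div_iff₀ (by positivity) h4n, inv_mul_le_iff₀ hE]
    have h5 : 4 ^ n * (n : ℝ) ^ (2 * n) ≤ (Real.exp (n * I (((j : ℝ) - n) / n)) *
        (((2 * n).choose j : ℝ) * (2 * n + 1))) * (n : ℝ) ^ (2 * n) := by linarith
    exact le_of_mul_le_mul_right h5 hnn

/-- Comparison of the kernels at two successive times. -/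
theorem b_succ_le (n : ℕ) (k : ℤ) :
    b (n + 1) k * (((n : ℝ) + 1) ^ 2 - k ^ 2) ≤ ((n : ℝ) + 1) ^ 2 * b n k := by
  have hR : 0 ≤ ((n : ℝ) + 1) ^ 2 * b n k := mul_nonneg (by positivity) (b_nonneg _ _)
  by_cases hk : |k| ≤ n
  · rw [abs_le] at hk
    obtain ⟨j, hj⟩ : ∃ j : ℕ, (n : ℤ) + k = j := ⟨(n + k).toNat, by omega⟩
    obtain ⟨l, hl⟩ : ∃ l : ℕ, (n : ℤ) - k = l := ⟨(n - k).toNat, by omega⟩
    have hjl : j + l = 2 * n := by omega
    have hjR : (n : ℝ) + k = j := by exact_mod_cast hj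
    have hlR : (n : ℝ) - k = l := by exact_mod_cast hl
    have h1 : ((2 * n + 1 + 1).choose (j + 1)) * (j + 1) = (2 * n + 1 + 1) * (2 * n + 1).choose j :=
      (Nat.add_one_mul_choose_eq (2 * n + 1) j).symm
    have h2 : (2 * n).choose j * (2 * n + 1) = (2 * n + 1).choose j * (2 * n + 1 - j) :=
      Nat.choose_mul_succ_eq (2 * n) j
    rw [show 2 * n + 1 - j = l + 1 by omega] at h2
    have h1' : ((2 * n + 1 + 1).choose (j + 1) : ℝ) * (j + 1) =
        (2 * n + 1 + 1) * (2 * n + 1).choose j := by exact_mod_cast h1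
    have h2' : ((2 * n).choose j : ℝ) * (2 * n + 1) = (2 * n + 1).choose j * (l + 1) := by
      exact_mod_cast h2
    unfold b
    rw [show ((n + 1 : ℕ) : ℤ) + k = ((j + 1 : ℕ) : ℤ) by push_cast; omega, hj, cz_natCast,
      cz_natCast, show 2 * (n + 1) = 2 * n + 1 + 1 by ring]
    have h3 : ((n : ℝ) + 1) ^ 2 - k ^ 2 = (j + 1) * (l + 1) := by rw [← hjR, ← hlR]; ring
    rw [h3]
    have h4 : ((2 * n + 1 + 1).choose (j + 1) : ℝ) * ((j + 1) * (l + 1)) =
        (2 * n + 2) * (2 * n + 1) * (2 * n).choose j := by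
      calc ((2 * n + 1 + 1).choose (j + 1) : ℝ) * ((j + 1) * (l + 1))
          = ((2 * n + 1 + 1).choose (j + 1) : ℝ) * (j + 1) * (l + 1) := by ring
        _ = (2 * n + 1 + 1) * ((2 * n + 1).choose j * (l + 1)) := by rw [h1']; ring
        _ = _ := by rw [← h2']; ring
    have h5 : ((2 * n + 1 + 1).choose (j + 1) : ℝ) / 4 ^ (n + 1) * ((j + 1) * (l + 1)) =
        (2 * n + 2) * (2 * n + 1) / 4 * ((2 * n).choose j / 4 ^ n) := by
      rw [div_mul_eq_mul_div, h4, pow_succ]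
      field_simp
    rw [h5]
    apply mul_le_mul_of_nonneg_right _ (by positivity)
    nlinarith [Nat.cast_nonneg (α := ℝ) n]
  · push Not at hk
    have hk2 : ((n : ℝ) + 1) ^ 2 ≤ (k : ℝ) ^ 2 := by
      have h1 : (n : ℤ) + 1 ≤ |k| := by omega
      have h2 : ((n : ℝ) + 1) ≤ |(k : ℝ)| := by exact_mod_cast h1
      rw [← sq_abs (k : ℝ)]
      exact pow_le_pow_left₀ (by positivity) h2 2
    have := b_nonneg (n + 1) k
    nlinarith

/-- The kernel is exponentially small near the boundary. -/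
theorem b_edge {n : ℕ} {k : ℤ} (hk : |k| ≤ n) :
    b n k * 4 ^ n ≤ 16 ^ (n - k.natAbs) * (17 / 16) ^ (2 * n) := by
  have h0 : k.natAbs ≤ n := by rw [Int.abs_eq_natAbs] at hk; omega
  have h1 : b n k * 4 ^ n = (2 * n).choose (n - k.natAbs) := by
    unfold b
    rw [div_mul_cancel₀ _ (by positivity)]
    rcases le_total 0 k with h | h
    · obtain ⟨a, rfl⟩ : ∃ a : ℕ, k = a := ⟨k.toNat, by omega⟩
      simp only [Int.natAbs_natCast] at h0 ⊢
      rw [show (n : ℤ) + (a : ℤ) = ((n + a : ℕ) : ℤ) by push_cast; ring, cz_natCast,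
        ← Nat.choose_symm_of_eq_add (show 2 * n = (n - a) + (n + a) by omega)]
    · obtain ⟨a, rfl⟩ : ∃ a : ℕ, k = -a := ⟨(-k).toNat, by omega⟩
      simp only [Int.natAbs_neg, Int.natAbs_natCast] at h0 ⊢
      rw [show (n : ℤ) + -(a : ℤ) = ((n - a : ℕ) : ℤ) by omega, cz_natCast]
  rw [h1]
  have h2 : ((1 : ℝ) / 16 + 1) ^ (2 * n) = ∑ i ∈ range (2 * n + 1),
      (1 / 16 : ℝ) ^ i * 1 ^ (2 * n - i) * (2 * n).choose i := add_pow _ _ _
  have h3 := single_le_sum (f := fun i => (1 / 16 : ℝ) ^ i * 1 ^ (2 * n - i) * (2 * n).choose i)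
    (s := range (2 * n + 1)) (fun i _ => by positivity)
    (mem_range.2 (show n - k.natAbs < 2 * n + 1 by omega))
  rw [← h2] at h3
  simp only [one_pow, mul_one] at h3
  rw [show (1 : ℝ) / 16 + 1 = 17 / 16 by norm_num, one_div, inv_pow, inv_mul_le_iff₀
    (by positivity)] at h3
  exact h3

theorem b_le_one (n : ℕ) (k : ℤ) : b n k ≤ 1 := by
  induction n generalizing k with
  | zero => rw [b_zero]; split_ifs <;> norm_num
  | succ n ih =>
    rw [b_succ, sum_insert (by decide), sum_insert (by decide), sum_singleton]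
    unfold w₁
    norm_num
    linarith [ih (k - -1), ih (k - 0), ih (k - 1), ih k, ih (k + 1)]

theorem W_le_b (n : ℕ) (x : Site d) (i : Fin d) : W n x ≤ b n (x i) := by
  rw [W_eq, ← mul_prod_erase univ _ (mem_univ i)]
  exact mul_le_of_le_one_right (b_nonneg _ _)
    (prod_le_one (fun _ _ => b_nonneg _ _) (fun _ _ => b_le_one _ _))

/-- A site where the expected number of particles is at least `1` is far from the boundary. -/
theorem far_from_edge {n : ℕ} {x : Site d} (h : 1 ≤ 3 ^ n * W n x) (i : Fin d) :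
    17 * (x i).natAbs ≤ 16 * n := by
  have hx : x ∈ box d n := by
    by_contra hc
    rw [W_eq_zero hc] at h
    norm_num at h
  rw [mem_box] at hx
  have h1 := b_edge (hx i)
  have h2 : 1 ≤ 3 ^ n * b n (x i) := h.trans (by gcongr; exact W_le_b n x i)
  have h0 : (x i).natAbs ≤ n := by have := hx i; rw [Int.abs_eq_natAbs] at this; omega
  -- `(4/3)^n ≤ 16^j (17/16)^(2n)`
  have h3 : (4 : ℝ) ^ n ≤ 3 ^ n * (16 ^ (n - (x i).natAbs) * (17 / 16) ^ (2 * n)) := by
    calc (4 : ℝ) ^ n ≤ (3 ^ n * b n (x i)) * 4 ^ n := le_mul_of_one_le_left (by positivity) h2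
      _ = 3 ^ n * (b n (x i) * 4 ^ n) := by ring
      _ ≤ _ := by gcongr
  by_contra hc
  push Not at hc
  set j := n - (x i).natAbs with hj
  have h4 : 17 * j < n := by omega
  have h5 : (1024 / 867 : ℝ) ^ n ≤ 16 ^ j := by
    have e1 : (4 : ℝ) ^ n = (1024 / 867) ^ n * (3 ^ n * (17 / 16) ^ (2 * n)) := by
      rw [pow_mul, ← mul_pow, ← mul_pow]
      congr 1
      norm_num
    rw [e1] at h3
    have e2 : (0 : ℝ) < 3 ^ n * (17 / 16) ^ (2 * n) := by positivity
    have e3 : (1024 / 867 : ℝ) ^ n * (3 ^ n * (17 / 16) ^ (2 * n)) ≤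
        16 ^ j * (3 ^ n * (17 / 16) ^ (2 * n)) := by linarith
    exact le_of_mul_le_mul_right e3 e2
  have h6 : ((16 : ℝ) ^ j) ^ 17 < (16 : ℝ) ^ n := by
    rw [← pow_mul]
    exact pow_lt_pow_right₀ (by norm_num) (by omega)
  have h7 : ((1024 / 867 : ℝ) ^ n) ^ 17 ≤ ((16 : ℝ) ^ j) ^ 17 :=
    pow_le_pow_left₀ (by positivity) h5 17
  have h8 : (16 : ℝ) ^ n ≤ ((1024 / 867 : ℝ) ^ n) ^ 17 := by
    rw [← pow_mul, mul_comm, pow_mul]
    exact pow_le_pow_left₀ (by norm_num) (by norm_num) n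
  linarith

/-- Going back in time. -/
theorem W_back {n : ℕ} {x : Site d} (h : ∀ i, 40 * (x i).natAbs ≤ 39 * (n + 1)) :
    W (n + 1) x ≤ 40 ^ d * W n x := by
  rw [W_eq, W_eq]
  have h1 : ∀ i, b (n + 1) (x i) ≤ 40 * b n (x i) := by
    intro i
    have h2 := b_succ_le n (x i)
    have h3 : (1 / 40 : ℝ) * ((n : ℝ) + 1) ^ 2 ≤ ((n : ℝ) + 1) ^ 2 - (x i) ^ 2 := by
      have h4 : 40 * |((x i : ℤ) : ℝ)| ≤ 39 * ((n : ℝ) + 1) := by
        have := h i
        have h5 : (40 : ℤ) * |x i| ≤ 39 * (n + 1) := by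
          rw [Int.abs_eq_natAbs]
          exact_mod_cast this
        exact_mod_cast h5
      rw [← sq_abs ((x i : ℤ) : ℝ)]
      have h6 : |((x i : ℤ) : ℝ)| ≤ 39 / 40 * ((n : ℝ) + 1) := by linarith
      have h7 : |((x i : ℤ) : ℝ)| ^ 2 ≤ (39 / 40 * ((n : ℝ) + 1)) ^ 2 :=
        pow_le_pow_left₀ (abs_nonneg _) h6 2
      nlinarith [sq_nonneg ((n : ℝ) + 1)]
    have h8 := mul_le_mul_of_nonneg_left h3 (b_nonneg (n + 1) (x i))
    have h9 : (0 : ℝ) < ((n : ℝ) + 1) ^ 2 := by positivity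
    have h10 : b (n + 1) (x i) * ((n : ℝ) + 1) ^ 2 ≤ 40 * b n (x i) * ((n : ℝ) + 1) ^ 2 := by
      linarith
    exact le_of_mul_le_mul_right h10 h9
  calc ∏ i, b (n + 1) (x i) ≤ ∏ i, (40 * b n (x i)) :=
        prod_le_prod (fun _ _ => b_nonneg _ _) (fun i _ => h1 i)
    _ = 40 ^ d * ∏ i, b n (x i) := by rw [prod_mul_distrib]; simp

theorem W_back_many {n r : ℕ} {x : Site d} (h : ∀ i, 40 * (x i).natAbs ≤ 39 * n) :
    W (n + r) x ≤ (40 ^ d) ^ r * W n x := by
  induction r with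
  | zero => simp
  | succ r ih =>
    have h1 : W (n + r + 1) x ≤ 40 ^ d * W (n + r) x :=
      W_back fun i => (h i).trans (by omega)
    calc W (n + (r + 1)) x ≤ 40 ^ d * W (n + r) x := h1
      _ ≤ 40 ^ d * ((40 ^ d) ^ r * W n x) := by gcongr
      _ = _ := by ring

end Pool.Agent.R951.BRW
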