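import Pool.Agent.R951.BRW.Nice

/-!
# The red and the blue law
-/

set_option autoImplicit false

open MeasureTheory Filter ProbabilityTheory
open scoped ENNReal

namespace Pool.Agent.R951.BRW

variable {d : ℕ}

theorem integral_of_lintegral {μ : Measure ℕ} (h3 : ∫⁻ k, (k : ℝ≥0∞) ∂μ = 3) :
    Integrable (fun k : ℕ => (k : ℝ)) μ ∧ ∫ k : ℕ, (k : ℝ) ∂μ = 3 := by
  have h1 : ∫⁻ k : ℕ, ENNReal.ofReal (k : ℝ) ∂μ = 3 := by
    rw [← h3]
    apply lintegral_congr
    intro k
    simp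
  constructor
  · refine ⟨(measurable_of_countable _).aestronglyMeasurable, ?_⟩
    rw [hasFiniteIntegral_iff_ofReal (by filter_upwards with k; positivity), h1]
    simp
  · rw [integral_eq_lintegral_of_nonneg_ae (by filter_upwards with k; positivity)
      (measurable_of_countable _).aestronglyMeasurable, h1]
    simp

/-- The reproduction law with kernel `nu d` and a given offspring distribution. -/
noncomputable def mkLaw (d : ℕ) (μ : Measure ℕ) (h1 : IsProbabilityMeasure μ)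
    (h2 : ∀ᵐ k ∂μ, 2 ≤ k) (h3 : ∫⁻ k, (k : ℝ≥0∞) ∂μ = 3) : Law d where
  μ := μ
  ν := nu d
  K := steps d
  prob_μ := h1
  prob_ν := inferInstance
  offspring_pos := by
    rw [ae_iff] at h2
    exact measure_mono_null (fun k hk => by
      simp only [Set.mem_singleton_iff] at hk
      simp [hk]) h2
  mean_finite := (integral_of_lintegral h3).1
  mean_gt := by
    rw [(integral_of_lintegral h3).2]
    norm_num
  neighbours := by
    intro i
    rw [mem_steps, mem_steps]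
    constructor
    · intro j
      by_cases h : j = i
      · subst h
        simp
      · simp [h]
    · intro j
      by_cases h : j = i
      · subst h
        simp
      · simp [h]
  ν_compl := by
    have h := lint_nu (d := d) (((steps d : Set (Site d))ᶜ).indicator 1)
    rw [lintegral_indicator_one (MeasurableSet.of_discrete)] at h
    rw [h]
    apply Finset.sum_eq_zero
    intro y hy
    rw [Set.indicator_of_notMem, mul_zero]
    simpa using hy
  ν_pos := by
    intro y hy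
    have h := lint_nu (d := d) (({y} : Set (Site d)).indicator 1)
    rw [lintegral_indicator_one (MeasurableSet.of_discrete)] at h
    rw [h]
    apply lt_of_lt_of_le _ (Finset.single_le_sum
      (f := fun z => ENNReal.ofReal (wt z) * (({y} : Set (Site d)).indicator 1) z)
      (fun _ _ => zero_le) hy)
    simp [wt_pos]

theorem nice_mkLaw (μ : Measure ℕ) (h1 : IsProbabilityMeasure μ)
    (h2 : ∀ᵐ k ∂μ, 2 ≤ k) (h3 : ∫⁻ k, (k : ℝ≥0∞) ∂μ = 3) : Nice (mkLaw d μ h1 h2 h3) :=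
  ⟨rfl, h2, h3⟩

theorem tm_tendsto {R : Law d} (hR : Nice R) :
    Tendsto (fun M => tm R M) atTop (nhds 3) := by
  rw [← (integral_of_lintegral hR.mean).2]
  unfold tm
  apply tendsto_integral_of_dominated_convergence (fun k : ℕ => (k : ℝ))
  · intro M
    exact (measurable_of_countable _).aestronglyMeasurable
  · exact (integral_of_lintegral hR.mean).1
  · intro M
    filter_upwards with k
    rw [Real.norm_of_nonneg (by positivity)]
    exact_mod_cast min_le_left k M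
  · filter_upwards with k
    apply tendsto_const_nhds.congr'
    filter_upwards [eventually_ge_atTop k] with M hM
    rw [min_eq_left hM]

/-- The red law: every particle has exactly three children. -/
noncomputable def red (d : ℕ) : Law d :=
  mkLaw d (Measure.dirac 3) inferInstance
    (by rw [ae_dirac_iff (MeasurableSet.of_discrete)]; norm_num)
    (by rw [lintegral_dirac]; norm_num)

theorem nice_red : Nice (red d) := nice_mkLaw _ _ _ _

theorem tm_red : tm (red d) 3 = 3 := by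
  unfold tm red mkLaw
  simp

/-! ### The blue law -/

/-- The atoms of the blue offspring distribution (minus two). -/
def wz (j : ℕ) : ℕ := 2 ^ (16 ^ j)

theorem wz_pos (j : ℕ) : 0 < wz j := by unfold wz; positivity

/-- `2 + w_j` children with probability `1 / w_j`, two children otherwise. -/
noncomputable def θ (j : ℕ) : Measure ℕ :=
  ((wz j : ℝ≥0∞)⁻¹) • Measure.dirac (2 + wz j) +
    (1 - (wz j : ℝ≥0∞)⁻¹) • Measure.dirac 2

/-- The blue offspring distribution: the mixture of the `θ j` with weights `2^(-j-1)`. -/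
noncomputable def μb : Measure ℕ := Measure.sum fun j => ((2 : ℝ≥0∞)⁻¹ ^ (j + 1)) • θ j

theorem inv_wz_le (j : ℕ) : (wz j : ℝ≥0∞)⁻¹ ≤ 1 := by
  rw [ENNReal.inv_le_one]
  exact_mod_cast wz_pos j

theorem sum_weights : ∑' j : ℕ, (2 : ℝ≥0∞)⁻¹ ^ (j + 1) = 1 := by
  simp only [pow_succ, ENNReal.tsum_mul_right, ENNReal.tsum_geometric,
    ENNReal.one_sub_inv_two, inv_inv]
  exact ENNReal.mul_inv_cancel (by norm_num) (by norm_num)

theorem lint_θ (j : ℕ) (f : ℕ → ℝ≥0∞) :
    ∫⁻ k, f k ∂(θ j) = (wz j : ℝ≥0∞)⁻¹ * f (2 + wz j) + (1 - (wz j : ℝ≥0∞)⁻¹) * f 2 := by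
  unfold θ
  rw [lintegral_add_measure, lintegral_smul_measure, lintegral_smul_measure, lintegral_dirac,
    lintegral_dirac, smul_eq_mul, smul_eq_mul]

theorem lint_μb (f : ℕ → ℝ≥0∞) :
    ∫⁻ k, f k ∂μb = ∑' j : ℕ, (2 : ℝ≥0∞)⁻¹ ^ (j + 1) *
      ((wz j : ℝ≥0∞)⁻¹ * f (2 + wz j) + (1 - (wz j : ℝ≥0∞)⁻¹) * f 2) := by
  unfold μb
  rw [lintegral_sum_measure]
  apply tsum_congr
  intro j
  rw [lintegral_smul_measure, lint_θ, smul_eq_mul]

theorem prob_μb : IsProbabilityMeasure μb := by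
  constructor
  have h := lint_μb (fun _ => 1)
  rw [lintegral_const, one_mul] at h
  rw [h]
  refine Eq.trans (tsum_congr fun j => ?_) sum_weights
  rw [mul_one, mul_one, add_tsub_cancel_of_le (inv_wz_le j), mul_one]

theorem two_le_μb : ∀ᵐ k ∂μb, 2 ≤ k := by
  rw [ae_iff]
  have h := lint_μb ({k | ¬ 2 ≤ k}.indicator 1)
  rw [lintegral_indicator_one (MeasurableSet.of_discrete)] at h
  rw [h]
  simp
  intro i
  omega

theorem mean_μb : ∫⁻ k, (k : ℝ≥0∞) ∂μb = 3 := by
  rw [lint_μb]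
  have h : ∀ j : ℕ, (2 : ℝ≥0∞)⁻¹ ^ (j + 1) * ((wz j : ℝ≥0∞)⁻¹ * ((2 + wz j : ℕ) : ℝ≥0∞) +
      (1 - (wz j : ℝ≥0∞)⁻¹) * ((2 : ℕ) : ℝ≥0∞)) = (2 : ℝ≥0∞)⁻¹ ^ (j + 1) * 3 := by
    intro j
    congr 1
    have h1 : (wz j : ℝ≥0∞)⁻¹ * (wz j : ℝ≥0∞) = 1 :=
      ENNReal.inv_mul_cancel (by exact_mod_cast (wz_pos j).ne') (by simp)
    push_cast
    calc (wz j : ℝ≥0∞)⁻¹ * (2 + wz j) + (1 - (wz j : ℝ≥0∞)⁻¹) * 2
        = ((wz j : ℝ≥0∞)⁻¹ + (1 - (wz j : ℝ≥0∞)⁻¹)) * 2 + (wz j : ℝ≥0∞)⁻¹ * wz j := by ring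
      _ = 3 := by
        rw [add_tsub_cancel_of_le (inv_wz_le j), h1]
        norm_num
  rw [tsum_congr h, ENNReal.tsum_mul_right, sum_weights, one_mul]

/-- The blue law. -/
noncomputable def blue (d : ℕ) : Law d := mkLaw d μb prob_μb two_le_μb mean_μb

theorem nice_blue : Nice (blue d) := nice_mkLaw _ _ _ _

/-- The truncated mean of the blue law. -/
theorem blue_truncated {B J : ℕ} (h : B < wz J) :
    ∫⁻ k in {k | k ≤ B}, (k : ℝ≥0∞) ∂μb + (2 : ℝ≥0∞)⁻¹ ^ (J + 1) ≤ 3 := by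
  have h0 := lintegral_add_compl (μ := μb) (fun k : ℕ => (k : ℝ≥0∞))
    (MeasurableSet.of_discrete (s := {k : ℕ | k ≤ B}))
  rw [mean_μb] at h0
  rw [← h0]
  refine add_le_add le_rfl ?_
  rw [← lintegral_indicator (MeasurableSet.of_discrete), lint_μb]
  refine le_trans ?_ (ENNReal.le_tsum J)
  have h1 : (2 + wz J) ∈ {k : ℕ | k ≤ B}ᶜ := by
    simp only [Set.mem_compl_iff, Set.mem_ofPred_eq, not_le]
    omega
  rw [Set.indicator_of_mem h1]
  apply le_mul_of_one_le_right'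
  have h2 : (wz J : ℝ≥0∞)⁻¹ * (wz J : ℝ≥0∞) = 1 :=
    ENNReal.inv_mul_cancel (by exact_mod_cast (wz_pos J).ne') (by simp)
  calc (1 : ℝ≥0∞) = (wz J : ℝ≥0∞)⁻¹ * (wz J : ℝ≥0∞) := h2.symm
    _ ≤ (wz J : ℝ≥0∞)⁻¹ * ((2 + wz J : ℕ) : ℝ≥0∞) := by
      gcongr
      omega
    _ ≤ _ := le_self_add

theorem blue_tail (B : ℕ) (hB : 0 < B) : μb {k | B < k} ≤ 3 / B := by
  have h := meas_ge_le_lintegral_div (μ := μb) (f := fun k : ℕ => (k : ℝ≥0∞))
    (measurable_of_countable _).aemeasurable (ε := (B : ℝ≥0∞)) (by exact_mod_cast hB.ne')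
    (by simp)
  rw [mean_μb] at h
  refine le_trans (measure_mono ?_) h
  intro k hk
  simp only [Set.mem_ofPred_eq] at hk ⊢
  exact_mod_cast hk.le

end Pool.Agent.R951.BRW
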