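import Pool.Agent.R951.BRW.Prob
import Pool.Agent.R951.BRW.Growth

/-!
# Laws with the binomial kernel, at least two children and mean three
-/

set_option autoImplicit false

open MeasureTheory Filter ProbabilityTheory
open scoped ENNReal

namespace Pool.Agent.R951.BRW

variable {d : ℕ}

/-- The law of a step: independent coordinates, equal to `-1`, `0`, `1` with probabilities
`1/4`, `1/2`, `1/4`. -/
noncomputable def nu (d : ℕ) : Measure (Site d) :=
  ∑ y ∈ steps d, ENNReal.ofReal (wt y) • Measure.dirac y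

theorem lint_nu (g : Site d → ℝ≥0∞) :
    ∫⁻ y, g y ∂(nu d) = ∑ y ∈ steps d, ENNReal.ofReal (wt y) * g y := by
  unfold nu
  rw [lintegral_finsetSum_measure]
  apply Finset.sum_congr rfl
  intro y _
  rw [lintegral_smul_measure, lintegral_dirac, smul_eq_mul]

instance : IsProbabilityMeasure (nu d) := by
  constructor
  have h := lint_nu (d := d) (fun _ => 1)
  rw [lintegral_const, one_mul] at h
  rw [h]
  simp only [mul_one]
  rw [← ENNReal.ofReal_sum_of_nonneg (fun y _ => (wt_pos y).le), sum_wt, ENNReal.ofReal_one]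

theorem lint_nu_avg (g : Site d → ℝ) (hg : ∀ y, 0 ≤ g y) (x : Site d) :
    ∫⁻ y, ENNReal.ofReal (g (x - y)) ∂(nu d) = ENNReal.ofReal (avg g x) := by
  rw [lint_nu]
  unfold avg
  rw [ENNReal.ofReal_sum_of_nonneg (fun y _ => mul_nonneg (wt_pos y).le (hg _))]
  apply Finset.sum_congr rfl
  intro y _
  rw [ENNReal.ofReal_mul (wt_pos y).le]

/-- The laws that we use. -/
structure Nice (R : Law d) : Prop where
  ν_eq : R.ν = nu d
  two_le : ∀ᵐ k ∂(R.μ), 2 ≤ k
  mean : ∫⁻ k, (k : ℝ≥0∞) ∂(R.μ) = 3

/-- The probability that some particle of generation `n` has displacement `x`. -/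
noncomputable def u (R : Law d) (n : ℕ) (x : Site d) : ℝ := (R.P (occ Set.univ n x)).toReal

theorem u_nonneg (R : Law d) (n : ℕ) (x : Site d) : 0 ≤ u R n x := ENNReal.toReal_nonneg

theorem u_le_one (R : Law d) (n : ℕ) (x : Site d) : u R n x ≤ 1 := by
  unfold u
  have : R.P (occ Set.univ n x) ≤ 1 := prob_le_one
  exact ENNReal.toReal_le_of_le_ofReal zero_le_one (by simpa using this)

theorem compl_eq (R : Law d) (n : ℕ) (x : Site d) :
    R.P (occ Set.univ n x)ᶜ = ENNReal.ofReal (1 - u R n x) := by
  rw [prob_compl_eq_one_sub (measurable_occ _ _ _), ENNReal.ofReal_sub _ (u_nonneg _ _ _),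
    ENNReal.ofReal_one]
  congr 1
  unfold u
  rw [ENNReal.ofReal_toReal (measure_ne_top _ _)]

theorem q_step {R : Law d} (hR : Nice R) (n : ℕ) (x : Site d) :
    ENNReal.ofReal (1 - u R (n + 1) x) =
      ∫⁻ k, ENNReal.ofReal ((1 - avg (u R n) x) ^ k) ∂(R.μ) := by
  rw [← compl_eq]
  have h1 : (occ (d := d) Set.univ (n + 1) x)ᶜ =
      {ω : Omega d | ∃ i < (ω []).1, sub ω i ∈ occ Set.univ n (x - (ω []).2 i)}ᶜ := by
    congr 1
    ext ω
    simp [occ]
  rw [h1, prob_none R (E := fun y => occ Set.univ n (x - y)) (fun y => measurable_occ _ _ _)]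
  apply lintegral_congr
  intro k
  have h2 : 0 ≤ 1 - avg (u R n) x := by
    have := avg_le_one (g := u R n) (x := x) (fun y => u_le_one _ _ _)
    linarith
  rw [ENNReal.ofReal_pow h2]
  congr 1
  rw [hR.ν_eq, ← avg_one_sub]
  rw [← lint_nu_avg (fun y => 1 - u R n y) (fun y => by have := u_le_one R n y; linarith) x]
  apply lintegral_congr
  intro y
  rw [compl_eq]

/-- The truncated mean number of children. -/
noncomputable def tm (R : Law d) (M : ℕ) : ℝ := ∫ k : ℕ, ((min k M : ℕ) : ℝ) ∂(R.μ)

theorem integrable_min (R : Law d) (M : ℕ) :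
    Integrable (fun k : ℕ => ((min k M : ℕ) : ℝ)) R.μ := by
  apply Integrable.of_bound (C := M) (measurable_of_countable _).aestronglyMeasurable
  filter_upwards with k
  rw [Real.norm_of_nonneg (by positivity)]
  exact_mod_cast min_le_right k M

theorem tm_nonneg (R : Law d) (M : ℕ) : 0 ≤ tm R M :=
  integral_nonneg fun k => by positivity

theorem tm_le (R : Law d) (M : ℕ) : tm R M ≤ M := by
  unfold tm
  calc ∫ k : ℕ, ((min k M : ℕ) : ℝ) ∂(R.μ) ≤ ∫ _k : ℕ, (M : ℝ) ∂(R.μ) := by
        apply integral_mono (integrable_min R M) (integrable_const _)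
        intro k
        simp only
        exact_mod_cast min_le_right k M
    _ = M := by simp

theorem one_sub_pow_le {s : ℝ} (hs0 : 0 ≤ s) (hs1 : s ≤ 1) (k : ℕ) :
    (1 - s) ^ k ≤ 1 / (1 + k * s) := by
  rw [le_div_iff₀ (by positivity)]
  have h1 : (1 - s) ^ k ≤ Real.exp (-s) ^ k := by
    apply pow_le_pow_left₀ (by linarith)
    have := Real.add_one_le_exp (-s)
    linarith
  have h2 : 1 + k * s ≤ Real.exp s ^ k := by
    rw [← Real.exp_nat_mul]
    have := Real.add_one_le_exp (k * s)
    linarith
  calc (1 - s) ^ k * (1 + k * s) ≤ Real.exp (-s) ^ k * Real.exp s ^ k := by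
        gcongr
    _ = 1 := by rw [← mul_pow, ← Real.exp_add]; simp

theorem growth {R : Law d} (hR : Nice R) (M : ℕ) : Growth (tm R M) M (u R) where
  nonneg := u_nonneg R
  le_one := u_le_one R
  zero := by
    unfold u occ
    simp
  step := by
    intro n x
    set s := avg (u R n) x with hs
    have hs0 : 0 ≤ s := avg_nonneg (u_nonneg R n)
    have hs1 : s ≤ 1 := avg_le_one (u_le_one R n)
    have hden : 0 < 1 + M * s := by positivity
    have h1 := q_step hR n x
    rw [← hs] at h1
    have h2 : ∀ k : ℕ, (1 - s) ^ k ≤ 1 - ((min k M : ℕ) : ℝ) * (s / (1 + M * s)) := by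
      intro k
      have e1 : (1 - s) ^ k ≤ (1 - s) ^ (min k M) :=
        pow_le_pow_of_le_one (by linarith) (by linarith) (min_le_left k M)
      have e2 := one_sub_pow_le hs0 hs1 (min k M)
      refine e1.trans (e2.trans ?_)
      have e3 : ((min k M : ℕ) : ℝ) ≤ M := by exact_mod_cast min_le_right k M
      have e4 : (0 : ℝ) ≤ ((min k M : ℕ) : ℝ) := by positivity
      have e5 : 0 < 1 + ((min k M : ℕ) : ℝ) * s := by positivity
      have e6 : (1 : ℝ) / (1 + ((min k M : ℕ) : ℝ) * s) =
          1 - ((min k M : ℕ) : ℝ) * (s / (1 + ((min k M : ℕ) : ℝ) * s)) := by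
        field_simp
        ring
      rw [e6]
      gcongr
    have h3 : ENNReal.ofReal (1 - u R (n + 1) x) ≤
        ENNReal.ofReal (1 - tm R M * (s / (1 + M * s))) := by
      rw [h1]
      have hint : Integrable (fun k : ℕ => 1 - ((min k M : ℕ) : ℝ) * (s / (1 + M * s))) R.μ :=
        (integrable_const _).sub ((integrable_min R M).mul_const _)
      have hval : ∫ k : ℕ, (1 - ((min k M : ℕ) : ℝ) * (s / (1 + M * s))) ∂(R.μ) =
          1 - tm R M * (s / (1 + M * s)) := by
        rw [integral_sub (integrable_const _) ((integrable_min R M).mul_const _),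
          integral_mul_const]
        simp [tm]
      rw [← hval, ofReal_integral_eq_lintegral_ofReal hint]
      · exact lintegral_mono fun k => ENNReal.ofReal_le_ofReal (h2 k)
      · filter_upwards with k
        exact le_trans (pow_nonneg (by linarith) k) (h2 k)
    have h4 : 0 ≤ 1 - tm R M * (s / (1 + M * s)) := by
      have e1 : tm R M * (s / (1 + M * s)) ≤ M * (s / (1 + M * s)) :=
        mul_le_mul_of_nonneg_right (tm_le R M) (by positivity)
      have e2 : (M : ℝ) * (s / (1 + M * s)) ≤ 1 := by
        rw [← mul_div_assoc, div_le_one hden]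
        linarith
      linarith
    rw [ENNReal.ofReal_le_ofReal_iff h4] at h3
    rw [mul_div_assoc]
    linarith
  double := by
    intro n x
    set s := avg (u R n) x with hs
    have hs0 : 0 ≤ s := avg_nonneg (u_nonneg R n)
    have hs1 : s ≤ 1 := avg_le_one (u_le_one R n)
    have h1 := q_step hR n x
    rw [← hs] at h1
    have h2 : ENNReal.ofReal (1 - u R (n + 1) x) ≤ ENNReal.ofReal ((1 - s) ^ 2) := by
      rw [h1]
      calc ∫⁻ k, ENNReal.ofReal ((1 - s) ^ k) ∂(R.μ)
          ≤ ∫⁻ _k, ENNReal.ofReal ((1 - s) ^ 2) ∂(R.μ) := by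
            apply lintegral_mono_ae
            filter_upwards [hR.two_le] with k hk
            exact ENNReal.ofReal_le_ofReal
              (pow_le_pow_of_le_one (by linarith) (by linarith) hk)
        _ = _ := by simp
    rwa [ENNReal.ofReal_le_ofReal_iff (by positivity)] at h2

/-- First moment bound. -/
theorem occ_upper {R : Law d} (hR : Nice R) (S : Set ℕ) (n : ℕ) (x : Site d) :
    R.P (occ S n x) ≤ (∫⁻ k in S, (k : ℝ≥0∞) ∂(R.μ)) ^ n * ENNReal.ofReal (W n x) := by
  induction n generalizing x with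
  | zero =>
    unfold occ W
    by_cases hx : x = 0
    · simp [hx]
    · simp [hx]
  | succ n ih =>
    refine (prob_some_le R (E := fun y => occ S n (x - y))
      (fun y => measurable_occ _ _ _) S).trans ?_
    rw [pow_succ', mul_assoc]
    gcongr
    calc ∫⁻ y, R.P (occ S n (x - y)) ∂(R.ν)
        ≤ ∫⁻ y, (∫⁻ k in S, (k : ℝ≥0∞) ∂(R.μ)) ^ n * ENNReal.ofReal (W n (x - y)) ∂(R.ν) :=
          lintegral_mono fun y => ih (x - y)
      _ = _ := by
          rw [lintegral_const_mul _ (measurable_of_countable _), hR.ν_eq,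
            lint_nu_avg (W n) (W_nonneg n) x]
          rfl

/-- Some particle of generation `< n` has more than `B` children. -/
def big (B : ℕ) : ℕ → Set (Omega d)
  | 0 => ∅
  | n + 1 => {ω | B < (ω []).1} ∪
      {ω | (ω []).1 ∈ Set.univ ∧ ∃ i < (ω []).1, sub ω i ∈ big B n}

theorem measurable_big (B n : ℕ) : MeasurableSet (big (d := d) B n) := by
  induction n with
  | zero => exact MeasurableSet.empty
  | succ n ih =>
    have m1 : Measurable (fun ω : Omega d => (ω []).1) :=
      measurable_fst.comp (measurable_pi_apply _)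
    exact (m1 (MeasurableSet.of_discrete (s := {k | B < k}))).union
      (measurable_step (fun _ => ih) Set.univ)

theorem occ_sub_big (B n : ℕ) (x : Site d) :
    occ Set.univ n x ⊆ big B n ∪ occ {k | k ≤ B} n x := by
  induction n generalizing x with
  | zero =>
    intro ω h
    exact Or.inr h
  | succ n ih =>
    rintro ω ⟨_, i, hi, h⟩
    by_cases hB : B < (ω []).1
    · exact Or.inl (Or.inl hB)
    · rcases ih _ h with h' | h'
      · exact Or.inl (Or.inr ⟨Set.mem_univ _, i, hi, h'⟩)
      · exact Or.inr ⟨not_lt.1 hB, i, hi, h'⟩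

theorem P_root (R : Law d) (S : Set ℕ) : R.P {ω | (ω []).1 ∈ S} = R.μ S := by
  unfold Law.P
  have h1 : {ω : Omega d | (ω []).1 ∈ S} =
      (fun ω : Omega d => ω []) ⁻¹' (S ×ˢ Set.univ) := by
    ext ω
    simp
  have h2 := Measure.map_apply (μ := Measure.infinitePi fun _ : List ℕ =>
      R.μ.prod (Measure.infinitePi fun _ : ℕ => R.ν)) (f := fun ω : Omega d => ω [])
    (measurable_pi_apply []) ((MeasurableSet.of_discrete (s := S)).prod MeasurableSet.univ)
  rw [h1, ← h2, Measure.infinitePi_map_eval (fun _ : List ℕ =>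
      R.μ.prod (Measure.infinitePi fun _ : ℕ => R.ν)) [], Measure.prod_prod, measure_univ, mul_one]

theorem big_upper {R : Law d} (hR : Nice R) (B n : ℕ) :
    R.P (big B n) ≤ 4 ^ n * R.μ {k | B < k} := by
  induction n with
  | zero => simp [big]
  | succ n ih =>
    have h1 : R.P (big B (n + 1)) ≤ R.μ {k | B < k} + 3 * R.P (big B n) := by
      refine (measure_union_le _ _).trans ?_
      apply add_le_add
      · exact (P_root R {k | B < k}).le
      · refine (prob_some_le R (E := fun _ => big B n) (fun _ => measurable_big B n)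
          Set.univ).trans ?_
        rw [setLIntegral_univ, hR.mean, lintegral_const, measure_univ, mul_one]
    refine h1.trans ?_
    calc R.μ {k | B < k} + 3 * R.P (big B n)
        ≤ 4 ^ n * R.μ {k | B < k} + 3 * (4 ^ n * R.μ {k | B < k}) := by
          gcongr
          exact le_mul_of_one_le_left' (one_le_pow₀ (by norm_num))
      _ = 4 ^ (n + 1) * R.μ {k | B < k} := by ring

end Pool.Agent.R951.BRW
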