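import Pool.Agent.R951.BRW.Defs

set_option autoImplicit false

open MeasureTheory Filter ProbabilityTheory
open scoped ENNReal

namespace Pool.Agent.R951.BRW

/-! ### Splitting the law at the root -/

section Split

variable {G : Type*} [MeasurableSpace G] (γ : Measure G) [IsProbabilityMeasure γ]

/-- Build a tree from the data at the root and the subtrees of the children. -/
def glue (p : G × (ℕ → List ℕ → G)) : List ℕ → G
  | [] => p.1
  | i :: u => p.2 i u

theorem measurable_glue : Measurable (glue : G × (ℕ → List ℕ → G) → List ℕ → G) := by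
  rw [measurable_pi_iff]
  rintro (_ | ⟨i, u⟩)
  · exact measurable_fst
  · exact (measurable_pi_apply u).comp ((measurable_pi_apply i).comp measurable_snd)

theorem map_glue :
    (γ.prod (Measure.infinitePi fun _ : ℕ => Measure.infinitePi fun _ : List ℕ => γ)).map glue =
      Measure.infinitePi fun _ : List ℕ => γ := by
  apply Measure.eq_infinitePi
  intro s t ht
  classical
  have hinj : Set.InjOn (fun p : ℕ × List ℕ => p.1 :: p.2)
      ((fun p : ℕ × List ℕ => p.1 :: p.2) ⁻¹' (s : Set (List ℕ))) := by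
    intro a _ b _ h
    simpa [Prod.ext_iff] using h
  set s' : Finset (ℕ × List ℕ) := s.preimage (fun p => p.1 :: p.2) hinj with hs'
  have hmeas : MeasurableSet (Set.pi (s : Set (List ℕ)) t) := .pi s.countable_toSet fun _ _ => ht _
  rw [Measure.map_apply measurable_glue hmeas]
  have hpre : glue ⁻¹' (Set.pi (s : Set (List ℕ)) t) = (if [] ∈ s then t [] else Set.univ) ×ˢ
      ((MeasurableEquiv.curry ℕ (List ℕ) G).symm ⁻¹'
        (Set.pi (s' : Set (ℕ × List ℕ)) (fun p => t (p.1 :: p.2)))) := by
    ext ⟨a, f⟩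
    simp only [Set.mem_preimage, Set.mem_pi, Set.mem_prod, hs', Finset.mem_coe,
      Finset.mem_preimage]
    constructor
    · intro h
      refine ⟨?_, ?_⟩
      · split_ifs with h0
        · exact h [] h0
        · trivial
      · rintro ⟨i, u⟩ hiu
        exact h (i :: u) hiu
    · rintro ⟨h1, h2⟩ (_ | ⟨i, u⟩) hu
      · rw [if_pos hu] at h1
        exact h1
      · exact h2 (i, u) hu
  rw [hpre, Measure.prod_prod, ← Measure.map_apply (MeasurableEquiv.measurable _)
    (.pi s'.countable_toSet fun _ _ => ht _), Measure.infinitePi_map_curry_symm (fun _ _ => γ),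
    Measure.infinitePi_pi _ (fun _ _ => ht _)]
  have h2 : ∏ i ∈ s', γ (t (i.1 :: i.2)) = ∏ u ∈ s.filter (fun u => u ≠ []), γ (t u) := by
    apply Finset.prod_bij (fun p _ => p.1 :: p.2)
    · intro p hp
      rw [hs', Finset.mem_preimage] at hp
      simp [hp]
    · intro a _ b _ h
      simpa [Prod.ext_iff] using h
    · rintro (_ | ⟨i, u⟩) hu
      · simp at hu
      · rw [Finset.mem_filter] at hu
        exact ⟨(i, u), by rw [hs', Finset.mem_preimage]; exact hu.1, rfl⟩
    · intro p _
      rfl
  rw [h2]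
  by_cases h0 : [] ∈ s
  · rw [if_pos h0]
    rw [← Finset.mul_prod_erase s (fun u => γ (t u)) h0]
    congr 1
    apply Finset.prod_congr _ (fun _ _ => rfl)
    ext u
    simp only [Finset.mem_filter, Finset.mem_erase]
    tauto
  · rw [if_neg h0, measure_univ, one_mul]
    apply Finset.prod_congr _ (fun _ _ => rfl)
    ext u
    simp only [Finset.mem_filter]
    constructor
    · exact fun h => h.1
    · exact fun h => ⟨h, fun h' => h0 (h' ▸ h)⟩

/-- Compute a probability by splitting at the root. -/
theorem measure_glue {E : Set (List ℕ → G)} (hE : MeasurableSet E) :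
    (Measure.infinitePi fun _ : List ℕ => γ) E =
      ∫⁻ a, (Measure.infinitePi fun _ : ℕ => Measure.infinitePi fun _ : List ℕ => γ)
        {f | glue (a, f) ∈ E} ∂γ := by
  conv_lhs => rw [← map_glue γ]
  rw [Measure.map_apply measurable_glue hE, Measure.prod_apply (measurable_glue hE)]
  rfl

end Split

variable {d : ℕ}

instance (R : Law d) : IsProbabilityMeasure R.μ := R.prob_μ
instance (R : Law d) : IsProbabilityMeasure R.ν := R.prob_ν

instance (R : Law d) : IsProbabilityMeasure R.P := by
  unfold Law.P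
  infer_instance

theorem P_glue (R : Law d) {E : Set (Omega d)} (hE : MeasurableSet E) :
    R.P E = ∫⁻ a, (Measure.infinitePi fun _ : ℕ => R.P) {f | glue (a, f) ∈ E}
      ∂(R.μ.prod (Measure.infinitePi fun _ : ℕ => R.ν)) :=
  measure_glue _ hE

theorem lint_coord (R : Law d) (g : Site d → ℝ≥0∞) (i : ℕ) :
    ∫⁻ Y : ℕ → Site d, g (Y i) ∂(Measure.infinitePi fun _ : ℕ => R.ν) = ∫⁻ y, g y ∂(R.ν) := by
  have hm2 : Measurable g := measurable_of_countable _
  rw [← lintegral_map hm2 (measurable_pi_apply i), Measure.infinitePi_map_eval]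

/-- Some particle of generation `n` has displacement `x`, and the numbers of children of all its
strict ancestors are in `S`. -/
def occ (S : Set ℕ) : ℕ → Site d → Set (Omega d)
  | 0, x => {_ω | x = 0}
  | n + 1, x => {ω | (ω []).1 ∈ S ∧ ∃ i < (ω []).1, sub ω i ∈ occ S n (x - (ω []).2 i)}

theorem measurable_sub (i : ℕ) : Measurable (fun ω : Omega d => sub ω i) := by
  rw [measurable_pi_iff]
  intro u
  exact measurable_pi_apply _

theorem measurable_step {E : Site d → Set (Omega d)} (hE : ∀ y, MeasurableSet (E y)) (S : Set ℕ) :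
    MeasurableSet {ω : Omega d | (ω []).1 ∈ S ∧ ∃ i < (ω []).1, sub ω i ∈ E ((ω []).2 i)} := by
  have h : {ω : Omega d | (ω []).1 ∈ S ∧ ∃ i < (ω []).1, sub ω i ∈ E ((ω []).2 i)} =
      {ω : Omega d | (ω []).1 ∈ S} ∩ ⋃ i : ℕ, ⋃ y : Site d, {ω | i < (ω []).1} ∩
        ({ω | (ω []).2 i = y} ∩ (fun ω => sub ω i) ⁻¹' (E y)) := by
    ext ω
    simp only [Set.mem_ofPred_eq, Set.mem_inter_iff, Set.mem_iUnion, Set.mem_preimage]
    constructor
    · rintro ⟨h1, i, h2, h3⟩
      exact ⟨h1, i, _, h2, rfl, h3⟩
    · rintro ⟨h1, i, y, h2, h3, h4⟩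
      exact ⟨h1, i, h2, by rw [h3]; exact h4⟩
  have m1 : Measurable (fun ω : Omega d => (ω []).1) := measurable_fst.comp (measurable_pi_apply _)
  have m2 : ∀ i, Measurable (fun ω : Omega d => (ω []).2 i) := fun i =>
    (measurable_pi_apply i).comp (measurable_snd.comp (measurable_pi_apply _))
  rw [h]
  apply MeasurableSet.inter (m1 (MeasurableSet.of_discrete (s := S)))
  apply MeasurableSet.iUnion
  intro i
  apply MeasurableSet.iUnion
  intro y
  apply MeasurableSet.inter
  · exact m1 (MeasurableSet.of_discrete (s := {k | i < k}))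
  · apply MeasurableSet.inter
    · exact m2 i (measurableSet_singleton y)
    · exact measurable_sub i (hE y)

theorem measurable_occ (S : Set ℕ) (n : ℕ) (x : Site d) : MeasurableSet (occ S n x) := by
  induction n generalizing x with
  | zero => exact MeasurableSet.const _
  | succ n ih => exact measurable_step (fun y => ih (x - y)) S

/-- The probability that no child starts a subtree in the corresponding event. -/
theorem prob_none (R : Law d) {E : Site d → Set (Omega d)} (hE : ∀ y, MeasurableSet (E y)) :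
    R.P {ω : Omega d | ∃ i < (ω []).1, sub ω i ∈ E ((ω []).2 i)}ᶜ =
      ∫⁻ k, (∫⁻ y, R.P (E y)ᶜ ∂(R.ν)) ^ k ∂(R.μ) := by
  have hm : MeasurableSet {ω : Omega d | ∃ i < (ω []).1, sub ω i ∈ E ((ω []).2 i)} := by
    have := measurable_step hE Set.univ
    simpa using this
  rw [P_glue R hm.compl]
  have h1 : ∀ a : ℕ × (ℕ → Site d), (Measure.infinitePi fun _ : ℕ => R.P)
      {f | glue (a, f) ∈ {ω : Omega d | ∃ i < (ω []).1, sub ω i ∈ E ((ω []).2 i)}ᶜ} =
      ∏ i ∈ Finset.range a.1, R.P (E (a.2 i))ᶜ := by
    intro a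
    rw [← Measure.infinitePi_pi (fun _ : ℕ => R.P) (s := Finset.range a.1)
      (t := fun i => (E (a.2 i))ᶜ) (fun i _ => (hE _).compl)]
    congr 1
    ext f
    simp only [Set.mem_compl_iff, Set.mem_ofPred_eq, not_exists, not_and, Set.mem_pi,
      Finset.coe_range, Set.mem_Iio]
    rfl
  rw [lintegral_congr h1]
  have hm2 : Measurable (fun y : Site d => R.P (E y)ᶜ) := measurable_of_countable _
  rw [lintegral_prod]
  · apply lintegral_congr
    intro k
    simp only
    rw [lintegral_prod_eq_prod_lintegral_of_indepFun (Finset.range k)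
      (fun i (Y : ℕ → Site d) => R.P (E (Y i))ᶜ)
      (iIndepFun_infinitePi (fun _ => hm2)) (fun i => hm2.comp (measurable_pi_apply i))]
    rw [Finset.prod_congr rfl (fun i _ => lint_coord R (fun y => R.P (E y)ᶜ) i),
      Finset.prod_const, Finset.card_range]
  · apply Measurable.aemeasurable
    apply measurable_from_prod_countable_right
    intro k
    have h5 : ∀ i, Measurable fun Y : ℕ → Site d => R.P (E (Y i))ᶜ :=
      fun i => hm2.comp (measurable_pi_apply i)
    exact Finset.measurable_prod (Finset.range k) (fun i _ => h5 i)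

/-- Union bound over the children. -/
theorem prob_some_le (R : Law d) {E : Site d → Set (Omega d)} (hE : ∀ y, MeasurableSet (E y))
    (S : Set ℕ) :
    R.P {ω : Omega d | (ω []).1 ∈ S ∧ ∃ i < (ω []).1, sub ω i ∈ E ((ω []).2 i)} ≤
      (∫⁻ k in S, (k : ℝ≥0∞) ∂(R.μ)) * ∫⁻ y, R.P (E y) ∂(R.ν) := by
  have hm := measurable_step hE S
  have hm2 : Measurable (fun y : Site d => R.P (E y)) := measurable_of_countable _
  rw [P_glue R hm]
  have h1 : ∀ a : ℕ × (ℕ → Site d), (Measure.infinitePi fun _ : ℕ => R.P)
      {f | glue (a, f) ∈ {ω : Omega d | (ω []).1 ∈ S ∧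
        ∃ i < (ω []).1, sub ω i ∈ E ((ω []).2 i)}} ≤
      S.indicator 1 a.1 * ∑ i ∈ Finset.range a.1, R.P (E (a.2 i)) := by
    intro a
    by_cases ha : a.1 ∈ S
    · rw [Set.indicator_of_mem ha, Pi.one_apply, one_mul]
      have h2 : {f | glue (a, f) ∈ {ω : Omega d | (ω []).1 ∈ S ∧
          ∃ i < (ω []).1, sub ω i ∈ E ((ω []).2 i)}} ⊆
          ⋃ i ∈ Finset.range a.1, (fun f : ℕ → Omega d => f i) ⁻¹' (E (a.2 i)) := by
        rintro f ⟨_, i, hi, h3⟩
        simp only [Set.mem_iUnion, Finset.mem_range]
        exact ⟨i, hi, h3⟩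
      refine (measure_mono h2).trans ((measure_biUnion_finset_le _ _).trans ?_)
      apply Finset.sum_le_sum
      intro i _
      rw [← Measure.map_apply (measurable_pi_apply i) (hE _), Measure.infinitePi_map_eval]
    · rw [Set.indicator_of_notMem ha, zero_mul]
      have h2 : {f | glue (a, f) ∈ {ω : Omega d | (ω []).1 ∈ S ∧
          ∃ i < (ω []).1, sub ω i ∈ E ((ω []).2 i)}} = ∅ := by
        ext f
        simp only [Set.mem_ofPred_eq, Set.mem_empty_iff_false, iff_false, not_and]
        intro h
        exact absurd h ha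
      rw [h2, measure_empty]
  refine (lintegral_mono h1).trans ?_
  rw [lintegral_prod]
  · have h3 : ∀ k : ℕ, (∫⁻ Y : ℕ → Site d, S.indicator 1 k *
        ∑ i ∈ Finset.range k, R.P (E (Y i)) ∂(Measure.infinitePi fun _ : ℕ => R.ν)) =
        S.indicator (fun k : ℕ => (k : ℝ≥0∞)) k * ∫⁻ y, R.P (E y) ∂(R.ν) := by
      intro k
      have h5 : ∀ i, Measurable fun Y : ℕ → Site d => R.P (E (Y i)) :=
        fun i => hm2.comp (measurable_pi_apply i)
      have h4 : Measurable fun Y : ℕ → Site d => ∑ i ∈ Finset.range k, R.P (E (Y i)) :=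
        Finset.measurable_sum _ fun i _ => h5 i
      rw [lintegral_const_mul _ h4, lintegral_finsetSum _ (fun i _ => h5 i)]
      rw [Finset.sum_congr rfl (fun i _ => lint_coord R (fun y => R.P (E y)) i),
        Finset.sum_const, Finset.card_range, nsmul_eq_mul, ← mul_assoc]
      by_cases hk : k ∈ S
      · simp [hk]
      · simp [hk]
    simp only [h3]
    rw [lintegral_mul_const _ (measurable_of_countable _),
      lintegral_indicator (MeasurableSet.of_discrete (s := S))]
  · apply Measurable.aemeasurable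
    apply measurable_from_prod_countable_right
    intro k
    have h5 : ∀ i, Measurable fun Y : ℕ → Site d => R.P (E (Y i)) :=
      fun i => hm2.comp (measurable_pi_apply i)
    exact (Finset.measurable_sum (Finset.range k) (fun i _ => h5 i)).const_mul
      (S.indicator 1 k)

end Pool.Agent.R951.BRW
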