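import Pool.Agent.R951.BRW.Laws
import Pool.Agent.R951.BRW.Kernel
import Pool.Agent.R951.BRW.Asym

/-!
# The race between red and blue
-/

set_option autoImplicit false

open MeasureTheory Filter ProbabilityTheory
open scoped ENNReal

namespace Pool.Agent.R951.BRW

variable {d : ℕ}

/-- A Borel–Cantelli lemma. -/
theorem borel_cantelli {Ω : Type*} [MeasurableSpace Ω] {P : Measure Ω} {s : ℕ → Set Ω}
    (h : ∀ᶠ t : ℕ in atTop, P (s t) ≤ ENNReal.ofReal (2 / (t : ℝ) ^ 2)) :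
    ∀ᵐ ω ∂P, ∀ᶠ t in atTop, ω ∉ s t := by
  obtain ⟨t₀, ht₀⟩ := eventually_atTop.1 h
  have h1 : ∑' t, P (s (t + t₀)) ≠ ∞ := by
    have h2 : ∑' t, P (s (t + t₀)) ≤
        ∑' t : ℕ, ENNReal.ofReal (2 / ((t + t₀ : ℕ) : ℝ) ^ 2) :=
      ENNReal.tsum_le_tsum fun t => ht₀ _ (Nat.le_add_left _ _)
    have h3 : Summable fun t : ℕ => 2 / ((t + t₀ : ℕ) : ℝ) ^ 2 := by
      have h4 : Summable fun t : ℕ => 2 / (t : ℝ) ^ 2 := by
        have := (Real.summable_one_div_nat_pow (p := 2)).2 (by norm_num)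
        exact (this.mul_left 2).congr fun t => by ring
      exact (summable_nat_add_iff t₀).2 h4
    refine ne_top_of_le_ne_top ?_ h2
    rw [← ENNReal.ofReal_tsum_of_nonneg (fun t => by positivity) h3]
    exact ENNReal.ofReal_ne_top
  filter_upwards [ae_eventually_notMem h1] with ω hω
  obtain ⟨N, hN⟩ := eventually_atTop.1 hω
  refine eventually_atTop.2 ⟨N + t₀, fun t ht => ?_⟩
  have := hN (t - t₀) (by omega)
  rwa [show t - t₀ + t₀ = t by omega] at this

theorem occ_iff (ω : Omega d) (n : ℕ) (x : Site d) :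
    ω ∈ occ Set.univ n x ↔ ∃ v : List ℕ, v.length = n ∧ Alive ω v ∧ disp ω v = x := by
  induction n generalizing ω x with
  | zero =>
    constructor
    · intro h
      have h0 : x = 0 := h
      exact ⟨[], rfl, trivial, h0.symm⟩
    · rintro ⟨v, hv, _, h⟩
      rw [List.length_eq_zero_iff] at hv
      subst hv
      exact h.symm
  | succ n ih =>
    constructor
    · rintro ⟨_, i, hi, h⟩
      obtain ⟨v, h1, h2, h3⟩ := (ih _ _).1 h
      refine ⟨i :: v, by simp [h1], ⟨hi, h2⟩, ?_⟩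
      show (ω []).2 i + disp (sub ω i) v = x
      rw [h3]
      abel
    · rintro ⟨_ | ⟨i, v⟩, h1, h2, h3⟩
      · simp at h1
      · refine ⟨Set.mem_univ _, i, h2.1, (ih _ _).2 ⟨v, by simpa using h1, h2.2, ?_⟩⟩
        have h4 : (ω []).2 i + disp (sub ω i) v = x := h3
        rw [← h4]
        abel

theorem hit_le_of_occ {ω : Omega d} {n : ℕ} {x₀ x : Site d} (h : ω ∈ occ Set.univ n (x - x₀)) :
    hit ω x₀ x ≤ n := by
  obtain ⟨v, h1, h2, h3⟩ := (occ_iff _ _ _).1 h
  unfold hit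
  refine (iInf_le _ (⟨v, h2, by rw [h3]; abel⟩ : {u : List ℕ // Alive ω u ∧ x₀ + disp ω u = x})).trans ?_
  simp [h1]

theorem occ_of_hit {ω : Omega d} {x₀ x : Site d} (h : hit ω x₀ x ≠ ⊤) :
    ∃ n : ℕ, hit ω x₀ x = n ∧ ω ∈ occ Set.univ n (x - x₀) := by
  have hne : Nonempty {u : List ℕ // Alive ω u ∧ x₀ + disp ω u = x} := by
    by_contra hc
    rw [not_nonempty_iff] at hc
    apply h
    unfold hit
    exact iInf_of_empty _
  obtain ⟨⟨v, h2, h3⟩, h4⟩ := ciInf_mem
    (fun u : {u : List ℕ // Alive ω u ∧ x₀ + disp ω u = x} => (u.1.length : ℕ∞))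
  refine ⟨v.length, h4.symm, (occ_iff _ _ _).2 ⟨v, rfl, h2, ?_⟩⟩
  rw [← h3]
  abel

theorem occ_box {n : ℕ} {x : Site d} {R : Law d} (hR : Nice R) (hx : x ∉ box d n) :
    R.P (occ Set.univ n x) = 0 := by
  have h := occ_upper hR Set.univ n x
  rw [W_eq_zero hx, ENNReal.ofReal_zero, mul_zero] at h
  exact le_antisymm h zero_le

/-- With overwhelming probability a site with a large expected number of particles is reached. -/
theorem whp {R : Law d} (hR : Nice R) {M L k : ℕ} (hM : 2 ≤ M) (htm : 0 < tm R M) (x : Site d)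
    (h : ∀ y : Site d, (∀ i, |y i| ≤ ((M * L : ℕ) : ℤ)) →
      ((2 * L + 1 : ℝ) ^ d) ^ k ≤ tm R M ^ (k * L) * W (k * L) (x + y)) :
    1 - u R (k * L + M * L) x ≤ Real.exp (-(2 ^ L / (1 + k * L))) := by
  have hM' : (2 : ℝ) ≤ M := by exact_mod_cast hM
  have hg := growth hR M
  have h1 := amplify hg (k * L) x (1 + k * (L * (M : ℝ) ^ L))⁻¹ (M * L) fun y hy =>
    occupied_lower hg htm (tm_le R M) (by linarith) L k (x + y) (h y hy)
  refine h1.trans ?_
  set p : ℝ := (1 + k * (L * (M : ℝ) ^ L))⁻¹ with hp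
  have hML : (1 : ℝ) ≤ (M : ℝ) ^ L := one_le_pow₀ (by linarith)
  have hp0 : 0 < p := by positivity
  have hp1 : p ≤ 1 := by
    apply inv_le_one_of_one_le₀
    have : (0 : ℝ) ≤ k * (L * (M : ℝ) ^ L) := by positivity
    linarith
  have h2 : (1 - p) ^ (2 ^ (M * L)) ≤ Real.exp (-(p * 2 ^ (M * L))) := by
    have h3 : 1 - p ≤ Real.exp (-p) := by
      have := Real.add_one_le_exp (-p)
      linarith
    calc (1 - p) ^ (2 ^ (M * L)) ≤ Real.exp (-p) ^ (2 ^ (M * L)) :=
          pow_le_pow_left₀ (by linarith) h3 _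
      _ = _ := by
        rw [← Real.exp_nat_mul]
        congr 1
        push_cast
        ring
  refine h2.trans (Real.exp_le_exp.2 (neg_le_neg ?_))
  have h4 : (2 * M : ℝ) ^ L ≤ 2 ^ (M * L) := by
    rw [pow_mul]
    apply pow_le_pow_left₀ (by positivity)
    have h5 : 2 * M ≤ 2 ^ M := by
      obtain ⟨c, rfl⟩ : ∃ c, M = c + 2 := ⟨M - 2, by omega⟩
      clear hg h1 hp1 hp0 hp h2 hML hM' htm h hM
      induction c with
      | zero => norm_num
      | succ c ih => rw [show c + 1 + 2 = (c + 2) + 1 by ring, pow_succ]; omega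
    exact_mod_cast h5
  calc (2 : ℝ) ^ L / (1 + k * L) ≤ p * (2 * M : ℝ) ^ L := by
        rw [hp, inv_mul_eq_div, div_le_div_iff₀ (by positivity) (by positivity), mul_pow]
        have h6 : (1 : ℝ) + k * (L * (M : ℝ) ^ L) ≤ (M : ℝ) ^ L * (1 + k * L) := by
          have : (0 : ℝ) ≤ k * (L * (M : ℝ) ^ L) := by positivity
          nlinarith
        calc (2 : ℝ) ^ L * (1 + k * (L * (M : ℝ) ^ L)) ≤ 2 ^ L * ((M : ℝ) ^ L * (1 + k * L)) := by
              gcongr
          _ = _ := by ring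
    _ ≤ p * 2 ^ (M * L) := by gcongr

/-! ### Red is fast -/

/-- The deterministic part: if the expected number of particles at `(t, x)` is large, then so is the
one near `x` at a slightly smaller time. -/
theorem red_param (d : ℕ) : ∀ᶠ t : ℕ in atTop,
    (∀ x : Site d, Real.exp ((t : ℝ) ^ (3 / 4 : ℝ) / 48) ≤ 3 ^ t * W t x →
      ∀ y : Site d, (∀ i, |y i| ≤ ((3 * Nat.sqrt t + 1 : ℕ) : ℤ)) →
      ((2 * Nat.sqrt t + 1 : ℝ) ^ d) ^ ((t - 3 * Nat.sqrt t - 1) / Nat.sqrt t) ≤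
        3 ^ ((t - 3 * Nat.sqrt t - 1) / Nat.sqrt t * Nat.sqrt t) *
        W ((t - 3 * Nat.sqrt t - 1) / Nat.sqrt t * Nat.sqrt t) (x + y)) := by
  filter_upwards [asym_base (48 * (48 * d + 8)), sqrt_mul_le 1000, eventually_ge_atTop 1]
    with t h1 h2 ht1 x hx y hy
  set L := Nat.sqrt t with hL
  set k := (t - 3 * L - 1) / L with hk
  have hL1 : 1 ≤ L := by
    rw [hL, Nat.le_sqrt]
    omega
  have hkL : k * L ≤ t - 3 * L - 1 := Nat.div_mul_le_self _ _
  have hkL2 : t - 3 * L - 1 < k * L + L := by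
    have := Nat.lt_div_mul_add (a := t - 3 * L - 1) (b := L) (by omega)
    exact this
  have ht0 : (1 : ℝ) ≤ t := by exact_mod_cast ht1
  -- the earlier time
  obtain ⟨t', ht'⟩ : ∃ t', k * L = t' + (3 * L + 1) := ⟨k * L - (3 * L + 1), by omega⟩
  obtain ⟨r, hr⟩ : ∃ r, t = t' + r := ⟨t - t', by omega⟩
  have hr2 : r ≤ 7 * L + 1 := by omega
  have hx1 : 1 ≤ 3 ^ t * W t x := by
    refine le_trans ?_ hx
    rw [Real.one_le_exp_iff]
    positivity
  have h3 : W t x ≤ (40 ^ d) ^ r * W t' x := by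
    rw [hr]
    apply W_back_many
    intro i
    have h4 := far_from_edge hx1 i
    omega
  have h4 := W_shift t' (3 * L + 1) x y hy
  rw [← ht'] at h4
  -- assemble
  have hsqrt : (L : ℝ) ≤ √(t : ℝ) := sqrt_le_real t
  have hlog : 0 ≤ Real.log t := Real.log_nonneg ht0
  set S : ℝ := √(t : ℝ) * (1 + Real.log t) with hS
  have hS1 : (L : ℝ) ≤ S := by
    calc (L : ℝ) ≤ √(t : ℝ) := hsqrt
      _ ≤ _ := le_mul_of_one_le_right (Real.sqrt_nonneg _) (by linarith)
  have hL1' : (1 : ℝ) ≤ L := by exact_mod_cast hL1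
  have e3 : (3 : ℝ) ≤ Real.exp 2 := by
    have h5 := Real.exp_one_gt_d9
    have h6 : Real.exp 2 = Real.exp 1 * Real.exp 1 := by rw [← Real.exp_add]; norm_num
    nlinarith
  have e4 : (4 : ℝ) ≤ Real.exp 2 := by
    have h5 := Real.exp_one_gt_d9
    have h6 : Real.exp 2 = Real.exp 1 * Real.exp 1 := by rw [← Real.exp_add]; norm_num
    nlinarith
  have e40 : (40 : ℝ) ≤ Real.exp 4 := by
    have h5 := Real.exp_one_gt_d9
    have h6 : Real.exp 4 = Real.exp 2 * Real.exp 2 := by rw [← Real.exp_add]; norm_num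
    have h7 : Real.exp 2 = Real.exp 1 * Real.exp 1 := by rw [← Real.exp_add]; norm_num
    have h8 : (7.3 : ℝ) ≤ Real.exp 2 := by nlinarith
    nlinarith
  -- each factor
  have f1 : ((2 * L + 1 : ℝ) ^ d) ^ k ≤ Real.exp (8 * d * S) := by
    rw [← pow_mul, ← Real.exp_log (show (0 : ℝ) < 2 * L + 1 by positivity), ← Real.exp_nat_mul]
    apply Real.exp_le_exp.2
    have hk4 : (k : ℝ) ≤ 4 * L := by
      have h5 : k * L ≤ t := by omega
      have h6 : k * L < (L + 1) * (L + 1) := lt_of_le_of_lt h5 (Nat.lt_succ_sqrt t)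
      have h7 : k ≤ 4 * L := by
        by_contra hc
        push Not at hc
        have h8 : (4 * L + 1) * L ≤ k * L := Nat.mul_le_mul_right _ hc
        nlinarith
      exact_mod_cast h7
    have h5 : Real.log (2 * L + 1) ≤ 2 * (1 + Real.log t) := by
      refine le_trans ?_ (log_two_mul_add_one ht1)
      apply Real.log_le_log (by positivity)
      have : (L : ℝ) ≤ t := by exact_mod_cast Nat.sqrt_le_self t
      linarith
    have h6 : 0 ≤ Real.log (2 * L + 1) := Real.log_nonneg (by linarith)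
    push_cast
    calc (d : ℝ) * k * Real.log (2 * L + 1) ≤ d * (4 * √(t : ℝ)) * (2 * (1 + Real.log t)) := by
          gcongr
          linarith
      _ = 8 * d * S := by rw [hS]; ring
  have f2 : (3 : ℝ) ^ t ≤ Real.exp (8 * S) * 3 ^ (k * L) := by
    obtain ⟨c, hc⟩ : ∃ c, t = c + k * L := ⟨t - k * L, by omega⟩
    have hc2 : c ≤ 4 * L := by omega
    rw [hc, pow_add]
    gcongr
    calc (3 : ℝ) ^ c ≤ 3 ^ (4 * L) := pow_le_pow_right₀ (by norm_num) hc2
      _ ≤ Real.exp 2 ^ (4 * L) := pow_le_pow_left₀ (by norm_num) e3 _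
      _ = Real.exp (8 * L) := by
        rw [← Real.exp_nat_mul]
        congr 1
        push_cast
        ring
      _ ≤ _ := Real.exp_le_exp.2 (by linarith)
  have f3 : (1 : ℝ) ≤ Real.exp (8 * d * S) * ((1 / 4 : ℝ) ^ d) ^ (3 * L + 1) := by
    have h5 : ((4 : ℝ) ^ d) ^ (3 * L + 1) ≤ Real.exp (8 * d * S) := by
      rw [← pow_mul]
      calc (4 : ℝ) ^ (d * (3 * L + 1)) ≤ 4 ^ (d * (4 * L)) :=
            pow_le_pow_right₀ (by norm_num) (Nat.mul_le_mul_left _ (by omega))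
        _ ≤ Real.exp 2 ^ (d * (4 * L)) := pow_le_pow_left₀ (by norm_num) e4 _
        _ = Real.exp (8 * d * L) := by
          rw [← Real.exp_nat_mul]
          congr 1
          push_cast
          ring
        _ ≤ _ := by
          apply Real.exp_le_exp.2
          gcongr
    calc (1 : ℝ) = ((4 : ℝ) ^ d) ^ (3 * L + 1) * ((1 / 4 : ℝ) ^ d) ^ (3 * L + 1) := by
          rw [← mul_pow, ← mul_pow]
          norm_num
      _ ≤ _ := by gcongr
  have f4 : ((40 : ℝ) ^ d) ^ r ≤ Real.exp (32 * d * S) := by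
    rw [← pow_mul]
    calc (40 : ℝ) ^ (d * r) ≤ 40 ^ (d * (8 * L)) :=
          pow_le_pow_right₀ (by norm_num) (Nat.mul_le_mul_left _ (by omega))
      _ ≤ Real.exp 4 ^ (d * (8 * L)) := pow_le_pow_left₀ (by norm_num) e40 _
      _ = Real.exp (32 * d * L) := by
        rw [← Real.exp_nat_mul]
        congr 1
        push_cast
        ring
      _ ≤ _ := by
        apply Real.exp_le_exp.2
        gcongr
  have hW' : 0 ≤ W t' x := W_nonneg _ _
  have g1 : Real.exp ((t : ℝ) ^ (3 / 4 : ℝ) / 48) ≤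
      Real.exp (8 * S) * 3 ^ (k * L) * (Real.exp (32 * d * S) * W t' x) := by
    calc Real.exp ((t : ℝ) ^ (3 / 4 : ℝ) / 48) ≤ 3 ^ t * W t x := hx
      _ ≤ (Real.exp (8 * S) * 3 ^ (k * L)) * (Real.exp (32 * d * S) * W t' x) := by
        have h5 : W t x ≤ Real.exp (32 * d * S) * W t' x := h3.trans (by gcongr)
        exact mul_le_mul f2 h5 (W_nonneg _ _) (by positivity)
  have g2 : Real.exp (8 * d * S) * (Real.exp (8 * S) * Real.exp (32 * d * S) *
      Real.exp (8 * d * S)) ≤ Real.exp ((t : ℝ) ^ (3 / 4 : ℝ) / 48) := by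
    rw [← Real.exp_add, ← Real.exp_add, ← Real.exp_add]
    apply Real.exp_le_exp.2
    linarith
  have g3 : Real.exp (8 * d * S) ≤ 3 ^ (k * L) * (((1 / 4 : ℝ) ^ d) ^ (3 * L + 1) * W t' x) := by
    have hA : 0 < Real.exp (8 * S) * Real.exp (32 * d * S) * Real.exp (8 * d * S) := by positivity
    have h5 : Real.exp (8 * d * S) * (Real.exp (8 * S) * Real.exp (32 * d * S) *
        Real.exp (8 * d * S)) ≤ 3 ^ (k * L) * (((1 / 4 : ℝ) ^ d) ^ (3 * L + 1) * W t' x) *
        (Real.exp (8 * S) * Real.exp (32 * d * S) * Real.exp (8 * d * S)) := by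
      refine g2.trans (g1.trans ?_)
      calc Real.exp (8 * S) * 3 ^ (k * L) * (Real.exp (32 * d * S) * W t' x)
          ≤ (Real.exp (8 * S) * 3 ^ (k * L) * (Real.exp (32 * d * S) * W t' x)) *
            (Real.exp (8 * d * S) * ((1 / 4 : ℝ) ^ d) ^ (3 * L + 1)) :=
            le_mul_of_one_le_right (by positivity) f3
        _ = _ := by ring
    exact le_of_mul_le_mul_right h5 hA
  calc ((2 * L + 1 : ℝ) ^ d) ^ k ≤ Real.exp (8 * d * S) := f1
    _ ≤ 3 ^ (k * L) * (((1 / 4 : ℝ) ^ d) ^ (3 * L + 1) * W t' x) := g3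
    _ ≤ 3 ^ (k * L) * W (k * L) (x + y) := by gcongr

end Pool.Agent.R951.BRW
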