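import Pool.Agent.R951.BRW.Race

/-!
# The race between red and blue: almost sure statements
-/

set_option autoImplicit false

open MeasureTheory Filter ProbabilityTheory
open scoped ENNReal

namespace Pool.Agent.R951.BRW

variable {d : ℕ}

/-- The threshold. -/
noncomputable def thr (t : ℕ) : ℝ := Real.exp ((t : ℝ) ^ (3 / 4 : ℝ) / 48)

/-- Red is too slow for some site with a large expected number of particles at time `t`. -/
def redBad (e : Site d) (t : ℕ) : Set (Omega d) :=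
  {ω | ∃ x ∈ box d t, thr t ≤ 3 ^ t * W t x ∧ ∀ n < t, ω ∉ occ Set.univ n (x + e)}

theorem union_box_le {P : Measure (Omega d)} (t : ℕ) (E : Site d → Set (Omega d)) (c : ℝ)
    (hE : ∀ x ∈ box d t, P (E x) ≤ ENNReal.ofReal c) :
    P (⋃ x ∈ box d t, E x) ≤ ENNReal.ofReal ((2 * t + 1) ^ d * c) := by
  refine (measure_biUnion_finset_le _ _).trans ((Finset.sum_le_card_nsmul _ _ _ hE).trans ?_)
  rw [card_box, nsmul_eq_mul, ENNReal.ofReal_mul (by positivity)]
  gcongr
  rw [ENNReal.ofReal_pow (by positivity), ENNReal.ofReal_add (by positivity) (by positivity),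
    ENNReal.ofReal_mul (by positivity)]
  simp

theorem red_fast (e : Site d) (he : ∀ i, |e i| ≤ 1) :
    ∀ᵐ ω ∂((red d).P), ∀ᶠ t in atTop, ω ∉ redBad e t := by
  apply borel_cantelli
  filter_upwards [red_param d, asym_sum' d 1 one_pos, asym_exp, sqrt_mul_le 1000,
    eventually_ge_atTop 1] with t h1 h2 h3 h4 ht1
  set L := Nat.sqrt t with hL
  set k := (t - 3 * L - 1) / L with hk
  have hL1 : 1 ≤ L := by
    rw [hL, Nat.le_sqrt]
    omega
  have hkL : k * L ≤ t - 3 * L - 1 := Nat.div_mul_le_self _ _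
  have hn : k * L + 3 * L < t := by omega
  have hx : ∀ x ∈ box d t, (red d).P {ω | thr t ≤ 3 ^ t * W t x ∧
      ∀ n < t, ω ∉ occ Set.univ n (x + e)} ≤ ENNReal.ofReal (Real.exp (-(1 * (t : ℝ)))) := by
    intro x _
    by_cases hthr : thr t ≤ 3 ^ t * W t x
    · have h5 : {ω : Omega d | thr t ≤ 3 ^ t * W t x ∧ ∀ n < t, ω ∉ occ Set.univ n (x + e)} ⊆
          (occ Set.univ (k * L + 3 * L) (x + e))ᶜ := fun ω hω => hω.2 _ hn
      refine (measure_mono h5).trans ?_
      rw [compl_eq]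
      apply ENNReal.ofReal_le_ofReal
      have h6 := whp (R := red d) nice_red (M := 3) (L := L) (k := k) (by norm_num)
        (by rw [tm_red]; norm_num) (x + e) (fun y hy => by
          rw [tm_red, add_assoc]
          apply h1 x hthr
          intro i
          rw [Pi.add_apply]
          have h7 := he i
          have h8 := hy i
          calc |e i + y i| ≤ |e i| + |y i| := abs_add_le _ _
            _ ≤ 1 + ((3 * L : ℕ) : ℤ) := add_le_add h7 h8
            _ = ((3 * L + 1 : ℕ) : ℤ) := by push_cast; ring)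
      refine h6.trans (Real.exp_le_exp.2 (neg_le_neg ?_))
      rw [one_mul, le_div_iff₀ (by positivity)]
      refine le_trans ?_ h3
      have h7 : (k : ℝ) * L ≤ t := by
        have : k * L ≤ t := by omega
        exact_mod_cast this
      gcongr
    · have h5 : {ω : Omega d | thr t ≤ 3 ^ t * W t x ∧ ∀ n < t, ω ∉ occ Set.univ n (x + e)} =
          ∅ := by
        ext ω
        simp [hthr]
      rw [h5, measure_empty]
      exact zero_le
  have h5 : redBad e t ⊆ ⋃ x ∈ box d t, {ω : Omega d | thr t ≤ 3 ^ t * W t x ∧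
      ∀ n < t, ω ∉ occ Set.univ n (x + e)} := by
    rintro ω ⟨x, hx, h⟩
    rw [Set.mem_iUnion₂]
    exact ⟨x, hx, h⟩
  refine (measure_mono h5).trans ((union_box_le t _ _ hx).trans ?_)
  apply ENNReal.ofReal_le_ofReal
  refine h2.trans ?_
  gcongr
  norm_num

/-- Blue reaches a site whose expected number of particles at time `t` is not large. -/
def blueBad (t : ℕ) : Set (Omega d) :=
  {ω | ∃ x, 3 ^ t * W t x < thr t ∧ ω ∈ occ Set.univ t x}

theorem blue_occ_le {t : ℕ} (ht : 1 ≤ t) (x : Site d) (hx : 3 ^ t * W t x < thr t) :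
    (blue d).P (occ {k | k ≤ 8 ^ t} t x) ≤
      ENNReal.ofReal (Real.exp (-(1 / 48 * (t : ℝ) ^ (3 / 4 : ℝ)))) := by
  obtain ⟨J, hJ1, hJ2⟩ := blue_param ht
  have h1 := blue_truncated (B := 8 ^ t) (J := J) hJ1
  have h2 := occ_upper (R := blue d) nice_blue {k | k ≤ 8 ^ t} t x
  set A : ℝ≥0∞ := ∫⁻ k in {k | k ≤ 8 ^ t}, (k : ℝ≥0∞) ∂μb with hA
  have hA' : ∫⁻ k in {k | k ≤ 8 ^ t}, (k : ℝ≥0∞) ∂((blue d).μ) = A := rfl
  rw [hA'] at h2
  set τ : ℝ := (1 / 2 : ℝ) ^ (J + 1) with hτ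
  have hτ0 : 0 < τ := by positivity
  have hτ1 : τ ≤ 1 := pow_le_one₀ (by norm_num) (by norm_num)
  have h3 : A ≤ ENNReal.ofReal (3 - τ) := by
    rw [ENNReal.ofReal_sub _ hτ0.le]
    apply ENNReal.le_sub_of_add_le_right ENNReal.ofReal_ne_top
    have h4 : ENNReal.ofReal τ = (2 : ℝ≥0∞)⁻¹ ^ (J + 1) := by
      rw [hτ, ENNReal.ofReal_pow (by norm_num), one_div, ENNReal.ofReal_inv_of_pos (by norm_num)]
      norm_num
    rw [h4]
    refine h1.trans ?_
    norm_num
  have h4 : (blue d).P (occ {k | k ≤ 8 ^ t} t x) ≤ ENNReal.ofReal ((3 - τ) ^ t * W t x) := by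
    rw [ENNReal.ofReal_mul (by have : 0 ≤ 3 - τ := by linarith
                               positivity), ENNReal.ofReal_pow (by linarith)]
    refine h2.trans ?_
    gcongr
  refine h4.trans (ENNReal.ofReal_le_ofReal ?_)
  have h5 : 3 - τ ≤ 3 * Real.exp (-(τ / 3)) := by
    have := Real.add_one_le_exp (-(τ / 3))
    linarith
  have h6 : (3 - τ) ^ t ≤ 3 ^ t * Real.exp (-((t : ℝ) ^ (3 / 4 : ℝ) / 24)) := by
    calc (3 - τ) ^ t ≤ (3 * Real.exp (-(τ / 3))) ^ t := pow_le_pow_left₀ (by linarith) h5 t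
      _ = 3 ^ t * Real.exp (-(t * τ / 3)) := by
        rw [mul_pow, ← Real.exp_nat_mul]
        congr 2
        ring
      _ ≤ _ := by
        apply mul_le_mul_of_nonneg_left (Real.exp_le_exp.2 _) (by positivity)
        linarith
  have hW := W_nonneg t x
  calc (3 - τ) ^ t * W t x ≤ 3 ^ t * Real.exp (-((t : ℝ) ^ (3 / 4 : ℝ) / 24)) * W t x := by
        gcongr
    _ = (3 ^ t * W t x) * Real.exp (-((t : ℝ) ^ (3 / 4 : ℝ) / 24)) := by ring
    _ ≤ thr t * Real.exp (-((t : ℝ) ^ (3 / 4 : ℝ) / 24)) := by gcongr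
    _ = Real.exp (-(1 / 48 * (t : ℝ) ^ (3 / 4 : ℝ))) := by
      unfold thr
      rw [← Real.exp_add]
      congr 1
      ring

theorem blue_slow : ∀ᵐ ω ∂((blue d).P), ∀ᶠ t in atTop, ω ∉ blueBad t := by
  apply borel_cantelli
  filter_upwards [asym_sum d (1 / 48) (by norm_num), asym_half, eventually_ge_atTop 1]
    with t h1 h2 ht1
  have ht0 : (1 : ℝ) ≤ t := by exact_mod_cast ht1
  have hx : ∀ x ∈ box d t, (blue d).P {ω | 3 ^ t * W t x < thr t ∧
      ω ∈ occ {k | k ≤ 8 ^ t} t x} ≤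
      ENNReal.ofReal (Real.exp (-(1 / 48 * (t : ℝ) ^ (3 / 4 : ℝ)))) := by
    intro x _
    by_cases hthr : 3 ^ t * W t x < thr t
    · exact (measure_mono fun ω hω => hω.2).trans (blue_occ_le ht1 x hthr)
    · have h5 : {ω : Omega d | 3 ^ t * W t x < thr t ∧ ω ∈ occ {k | k ≤ 8 ^ t} t x} = ∅ := by
        ext ω
        simp [hthr]
      rw [h5, measure_empty]
      exact zero_le
  have h3 : (blue d).P (⋃ x ∈ (Set.univ : Set (Site d)) \ box d t, occ Set.univ t x) = 0 := by
    rw [measure_biUnion_null_iff (Set.to_countable _)]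
    intro x hx
    exact occ_box nice_blue (fun h => hx.2 h)
  have h4 : (blueBad t : Set (Omega d)) ⊆ big (8 ^ t) t ∪
      ((⋃ x ∈ box d t, {ω : Omega d | 3 ^ t * W t x < thr t ∧ ω ∈ occ {k | k ≤ 8 ^ t} t x}) ∪
      ⋃ x ∈ (Set.univ : Set (Site d)) \ box d t, occ Set.univ t x) := by
    rintro ω ⟨x, hx1, hx2⟩
    by_cases hb : x ∈ box d t
    · rcases occ_sub_big (8 ^ t) t x hx2 with h | h
      · exact Or.inl h
      · refine Or.inr (Or.inl ?_)
        rw [Set.mem_iUnion₂]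
        exact ⟨x, hb, hx1, h⟩
    · refine Or.inr (Or.inr ?_)
      rw [Set.mem_iUnion₂]
      exact ⟨x, ⟨Set.mem_univ _, hb⟩, hx2⟩
  have h5 : (blue d).P (big (8 ^ t) t) ≤ ENNReal.ofReal (3 * (1 / 2 : ℝ) ^ t) := by
    refine (big_upper nice_blue _ _).trans ?_
    have h6 : (blue d).μ {k | 8 ^ t < k} ≤ 3 / ((8 ^ t : ℕ) : ℝ≥0∞) :=
      blue_tail (8 ^ t) (by positivity)
    calc 4 ^ t * (blue d).μ {k | 8 ^ t < k} ≤ 4 ^ t * (3 / ((8 ^ t : ℕ) : ℝ≥0∞)) := by gcongr
      _ = ENNReal.ofReal (4 ^ t * (3 / 8 ^ t)) := by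
        rw [ENNReal.ofReal_mul (by positivity), ENNReal.ofReal_div_of_pos (by positivity),
          ENNReal.ofReal_pow (by norm_num), ENNReal.ofReal_pow (by norm_num)]
        norm_num
      _ = _ := by
        congr 1
        rw [show (8 : ℝ) = 4 * 2 by norm_num, mul_pow, one_div, inv_pow]
        field_simp
  refine (measure_mono h4).trans ((measure_union_le _ _).trans ?_)
  have h6 : (blue d).P ((⋃ x ∈ box d t, {ω : Omega d | 3 ^ t * W t x < thr t ∧
      ω ∈ occ {k | k ≤ 8 ^ t} t x}) ∪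
      ⋃ x ∈ (Set.univ : Set (Site d)) \ box d t, occ Set.univ t x) ≤
      ENNReal.ofReal ((2 * t + 1) ^ d * Real.exp (-(1 / 48 * (t : ℝ) ^ (3 / 4 : ℝ)))) := by
    refine (measure_union_le _ _).trans ?_
    rw [h3, add_zero]
    exact union_box_le t _ _ hx
  calc (blue d).P (big (8 ^ t) t) + _ ≤ ENNReal.ofReal (3 * (1 / 2 : ℝ) ^ t) +
        ENNReal.ofReal ((2 * t + 1) ^ d * Real.exp (-(1 / 48 * (t : ℝ) ^ (3 / 4 : ℝ)))) :=
        add_le_add h5 h6
    _ = ENNReal.ofReal (3 * (1 / 2 : ℝ) ^ t +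
        (2 * t + 1) ^ d * Real.exp (-(1 / 48 * (t : ℝ) ^ (3 / 4 : ℝ)))) := by
        rw [ENNReal.ofReal_add (by positivity) (by positivity)]
    _ ≤ ENNReal.ofReal (2 / (t : ℝ) ^ 2) := by
        apply ENNReal.ofReal_le_ofReal
        calc _ ≤ 1 / (t : ℝ) ^ 2 + 1 / (t : ℝ) ^ 2 := add_le_add h2 h1
          _ = _ := by ring

theorem e₁_abs (hd : 0 < d) (i : Fin d) : |e₁ hd i| ≤ 1 := by
  unfold e₁
  by_cases h : i = ⟨0, hd⟩
  · subst h
    simp
  · simp [h]

/-- Almost surely blue colours only finitely many sites. -/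
theorem blue_finite (hd : 0 < d) (tie : Omega d × Omega d → Site d → Prop) :
    ∀ᵐ ω ∂(P₀ (red d) (blue d)), (blueSites hd tie ω).Finite := by
  have h1 := red_fast (e₁ hd) (e₁_abs hd)
  have h2 := blue_slow (d := d)
  have h1' : ∀ᵐ ω ∂(P₀ (red d) (blue d)), ∀ᶠ t in atTop, ω.1 ∉ redBad (e₁ hd) t :=
    Measure.quasiMeasurePreserving_fst.ae h1
  have h2' : ∀ᵐ ω ∂(P₀ (red d) (blue d)), ∀ᶠ t in atTop, ω.2 ∉ blueBad t :=
    Measure.quasiMeasurePreserving_snd.ae h2
  -- generation `n` particles are in the box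
  have h3 : ∀ᵐ ω ∂((blue d).P), ∀ n : ℕ, ∀ x ∉ box d n, ω ∉ occ Set.univ n x := by
    rw [ae_all_iff]
    intro n
    rw [ae_all_iff]
    intro x
    by_cases hx : x ∈ box d n
    · filter_upwards with ω h
      exact absurd hx h
    · have := occ_box (n := n) (nice_blue (d := d)) hx
      filter_upwards [measure_eq_zero_iff_ae_notMem.1 this] with ω hω _
      exact hω
  have h3' : ∀ᵐ ω ∂(P₀ (red d) (blue d)), ∀ n : ℕ, ∀ x ∉ box d n, ω.2 ∉ occ Set.univ n x :=
    Measure.quasiMeasurePreserving_snd.ae h3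
  filter_upwards [h1', h2', h3'] with ω hr hb hbox
  obtain ⟨N, hN⟩ := eventually_atTop.1 (hr.and hb)
  have hsub : blueSites hd tie ω ⊆ (fun x => x + e₁ hd) '' (box d N : Set (Site d)) := by
    intro z hz
    have hfin : hit ω.2 (e₁ hd) z ≠ ⊤ := by
      rcases hz with h | ⟨h, h', _⟩
      · exact ne_top_of_lt h
      · rwa [← h]
    have hle : hit ω.2 (e₁ hd) z ≤ hit ω.1 0 z := by
      rcases hz with h | ⟨h, _, _⟩
      · exact h.le
      · exact h.ge
    obtain ⟨t, ht, hocc⟩ := occ_of_hit hfin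
    by_cases htN : t < N
    · refine ⟨z - e₁ hd, ?_, by simp⟩
      have h5 : z - e₁ hd ∈ box d t := by
        by_contra hc
        exact hbox t _ hc hocc
      rw [Finset.mem_coe, mem_box]
      intro i
      exact (mem_box.1 h5 i).trans (by exact_mod_cast htN.le)
    · exfalso
      obtain ⟨h6, h7⟩ := hN t (not_lt.1 htN)
      have h8 : thr t ≤ 3 ^ t * W t (z - e₁ hd) := by
        by_contra hc
        exact h7 ⟨_, not_le.1 hc, hocc⟩
      apply h6
      refine ⟨z - e₁ hd, ?_, h8, ?_⟩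
      · by_contra hc
        exact hbox t _ hc hocc
      · intro n hn hocc'
        rw [sub_add_cancel] at hocc'
        have h9 := hit_le_of_occ (x₀ := 0) (x := z) (by rwa [sub_zero])
        rw [ht] at hle
        have h10 := hle.trans h9
        have h11 : t ≤ n := by exact_mod_cast h10
        omega
  exact ((Finset.finite_toSet _).image _).subset hsub

theorem no_coexistence (hd : 0 < d) (tie : Omega d × Omega d → Site d → Prop) :
    P₀ (red d) (blue d) (Coexistence hd tie) = 0 := by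
  rw [measure_eq_zero_iff_ae_notMem]
  filter_upwards [blue_finite hd tie] with ω hω h
  exact h.2 hω

end Pool.Agent.R951.BRW
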