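import Pool.Agent.R951.BRW.Kernel
import Pool.Agent.R951.BRW.Asym

/-!
# The limiting shape
-/

set_option autoImplicit false

open Filter
open scoped Pointwise

namespace Pool.Agent.R951.BRW

variable {d : ℕ}

theorem I_continuous : Continuous I := by
  unfold I
  have h1 : Continuous fun v : ℝ => (1 + v) * Real.log (1 + v) :=
    Real.continuous_mul_log.comp (continuous_const.add continuous_id)
  have h2 : Continuous fun v : ℝ => (1 - v) * Real.log (1 - v) :=
    Real.continuous_mul_log.comp (continuous_const.sub continuous_id)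
  exact h1.add h2

theorem I_convex {a b v w : ℝ} (ha : 0 ≤ a) (hb : 0 ≤ b) (hab : a + b = 1) (hv : |v| ≤ 1)
    (hw : |w| ≤ 1) : I (a * v + b * w) ≤ a * I v + b * I w := by
  rw [abs_le] at hv hw
  have h := Real.convexOn_mul_log.2
  have h1 := h (x := 1 + v) (by simp; linarith [hv.1]) (y := 1 + w) (by simp; linarith [hw.1])
    ha hb hab
  have h2 := h (x := 1 - v) (by simp; linarith [hv.2]) (y := 1 - w) (by simp; linarith [hw.2])
    ha hb hab
  simp only [smul_eq_mul] at h1 h2
  have e1 : a * (1 + v) + b * (1 + w) = 1 + (a * v + b * w) := by linear_combination hab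
  have e2 : a * (1 - v) + b * (1 - w) = 1 - (a * v + b * w) := by linear_combination hab
  rw [e1] at h1
  rw [e2] at h2
  unfold I
  linarith

theorem I_zero : I 0 = 0 := by simp [I]

theorem I_scale {a v : ℝ} (ha : 0 ≤ a) (ha1 : a ≤ 1) (hv : |v| ≤ 1) : I (a * v) ≤ a * I v := by
  have h := I_convex ha (sub_nonneg.2 ha1) (by ring) hv (show |(0 : ℝ)| ≤ 1 by simp)
  rw [I_zero] at h
  simpa using h

theorem I_nonneg {v : ℝ} (hv : |v| ≤ 1) : 0 ≤ I v := by
  have h := I_convex (a := 1 / 2) (b := 1 / 2) (by norm_num) (by norm_num) (by norm_num) hv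
    (show |(-v)| ≤ 1 by rwa [abs_neg])
  rw [I_neg, show 1 / 2 * v + 1 / 2 * -v = 0 by ring, I_zero] at h
  linarith

/-- The limiting shape of the branching random walks with kernel `nu d` and mean three. -/
def shapeSet (d : ℕ) : Set (Fin d → ℝ) := {v | (∀ i, |v i| ≤ 1) ∧ ∑ i, I (v i) ≤ Real.log 3}

theorem zero_mem_shapeSet : (0 : Fin d → ℝ) ∈ shapeSet d := by
  constructor
  · simp
  · simp only [Pi.zero_apply, I_zero, Finset.sum_const_zero]
    exact Real.log_nonneg (by norm_num)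

theorem convex_shapeSet : Convex ℝ (shapeSet d) := by
  rintro v ⟨hv1, hv2⟩ w ⟨hw1, hw2⟩ a b ha hb hab
  refine ⟨fun i => ?_, ?_⟩
  · simp only [Pi.add_apply, Pi.smul_apply, smul_eq_mul]
    calc |a * v i + b * w i| ≤ |a * v i| + |b * w i| := abs_add_le _ _
      _ = a * |v i| + b * |w i| := by rw [abs_mul, abs_mul, abs_of_nonneg ha, abs_of_nonneg hb]
      _ ≤ a * 1 + b * 1 := by gcongr; exacts [hv1 i, hw1 i]
      _ = 1 := by linarith
  · calc ∑ i, I ((a • v + b • w) i) ≤ ∑ i, (a * I (v i) + b * I (w i)) :=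
          Finset.sum_le_sum fun i _ => I_convex ha hb hab (hv1 i) (hw1 i)
      _ = a * ∑ i, I (v i) + b * ∑ i, I (w i) := by
          rw [Finset.sum_add_distrib, Finset.mul_sum, Finset.mul_sum]
      _ ≤ a * Real.log 3 + b * Real.log 3 := by gcongr
      _ = Real.log 3 := by rw [← add_mul, hab, one_mul]

theorem sum_I_continuous : Continuous fun v : Fin d → ℝ => ∑ i, I (v i) :=
  continuous_finsetSum _ fun i _ => I_continuous.comp (continuous_apply i)

theorem compact_shapeSet : IsCompact (shapeSet d) := by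
  apply Metric.isCompact_of_isClosed_isBounded
  · have h1 : IsClosed {v : Fin d → ℝ | ∀ i, |v i| ≤ 1} := by
      simp only [Set.ofPred_forall]
      exact isClosed_iInter fun i => isClosed_le (continuous_abs.comp (continuous_apply i))
        continuous_const
    exact h1.inter (isClosed_le sum_I_continuous continuous_const)
  · apply Bornology.IsBounded.subset (Metric.isBounded_closedBall (x := (0 : Fin d → ℝ)) (r := 1))
    rintro v ⟨hv, _⟩
    rw [mem_closedBall_zero_iff, pi_norm_le_iff_of_nonneg zero_le_one]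
    exact hv

theorem zero_mem_interior : (0 : Fin d → ℝ) ∈ interior (shapeSet d) := by
  rw [mem_interior]
  refine ⟨{v : Fin d → ℝ | (∀ i, |v i| < 1) ∧ ∑ i, I (v i) < Real.log 3}, ?_, ?_, ?_⟩
  · rintro v ⟨h1, h2⟩
    exact ⟨fun i => (h1 i).le, h2.le⟩
  · have h1 : IsOpen {v : Fin d → ℝ | ∀ i, |v i| < 1} := by
      simp only [Set.ofPred_forall]
      exact isOpen_iInter_of_finite fun i => isOpen_lt (continuous_abs.comp (continuous_apply i))
        continuous_const
    exact h1.inter (isOpen_lt sum_I_continuous continuous_const)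
  · refine ⟨by simp, ?_⟩
    simp only [Pi.zero_apply, I_zero, Finset.sum_const_zero]
    exact Real.log_pos (by norm_num)

/-- A cube contained in the shape. -/
theorem exists_radius (d : ℕ) : ∃ r : ℝ, 0 < r ∧ ∀ v : Fin d → ℝ, (∀ i, |v i| ≤ r) →
    v ∈ shapeSet d := by
  have h := mem_interior_iff_mem_nhds.1 (zero_mem_interior (d := d))
  obtain ⟨r, hr, hball⟩ := Metric.nhds_basis_closedBall.mem_iff.1 h
  refine ⟨r, hr, fun v hv => hball ?_⟩
  rw [mem_closedBall_zero_iff, pi_norm_le_iff_of_nonneg hr.le]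
  exact hv

theorem smul_shape_mono {s t : ℝ} (hs : 0 ≤ s) (hst : s ≤ t) : s • shapeSet d ⊆ t • shapeSet d := by
  rintro _ ⟨v, hv, rfl⟩
  rcases hs.eq_or_lt with rfl | hs'
  · simp only [zero_smul]
    exact ⟨0, zero_mem_shapeSet, by simp⟩
  · have ht : 0 < t := hs'.trans_le hst
    refine ⟨(s / t) • v, ?_, ?_⟩
    · have h := convex_shapeSet (d := d) hv zero_mem_shapeSet (a := s / t) (b := 1 - s / t)
        (by positivity) (by rw [sub_nonneg, div_le_one ht]; exact hst) (by ring)
      simpa using h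
    · simp only [smul_smul]
      rw [mul_div_cancel₀ _ ht.ne']

theorem add_mem_smul {s t : ℝ} {v w : Fin d → ℝ} (hs : 0 ≤ s) (ht : 0 ≤ t)
    (hv : v ∈ s • shapeSet d) (hw : w ∈ t • shapeSet d) : v + w ∈ (s + t) • shapeSet d := by
  rw [convex_shapeSet.add_smul hs ht]
  exact Set.add_mem_add hv hw

theorem small_mem_smul {r s : ℝ} (hr : ∀ v : Fin d → ℝ, (∀ i, |v i| ≤ r) → v ∈ shapeSet d)
    (hs : 0 < s) {v : Fin d → ℝ} (hv : ∀ i, |v i| ≤ s * r) : v ∈ s • shapeSet d := by
  rw [Set.mem_smul_set_iff_inv_smul_mem₀ hs.ne']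
  apply hr
  intro i
  rw [Pi.smul_apply, smul_eq_mul, abs_mul, abs_inv, abs_of_pos hs, inv_mul_le_iff₀ hs]
  exact hv i

/-- The real vector of a site. -/
def toR (x : Site d) : Fin d → ℝ := fun i => (x i : ℝ)

theorem W_upper {n : ℕ} (hn : 0 < n) {x : Site d} (hx : x ∈ box d n) :
    W n x ≤ Real.exp (-(n * ∑ i, I (x i / n))) := by
  rw [mem_box] at hx
  rw [W_eq, Finset.mul_sum, ← Finset.sum_neg_distrib, Real.exp_sum]
  exact Finset.prod_le_prod (fun _ _ => b_nonneg _ _) fun i _ => (b_bounds hn (hx i)).1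

theorem W_lower {n : ℕ} (hn : 0 < n) {x : Site d} (hx : x ∈ box d n) :
    Real.exp (-(n * ∑ i, I (x i / n))) / (2 * n + 1) ^ d ≤ W n x := by
  rw [mem_box] at hx
  rw [W_eq, Finset.mul_sum, ← Finset.sum_neg_distrib, Real.exp_sum]
  have h : (∏ i : Fin d, Real.exp (-(n * I (x i / n)))) / (2 * n + 1 : ℝ) ^ d =
      ∏ i : Fin d, (Real.exp (-(n * I (x i / n))) / (2 * n + 1)) := by
    rw [Finset.prod_div_distrib]
    simp
  rw [h]
  exact Finset.prod_le_prod (fun _ _ => by positivity) fun i _ => (b_bounds hn (hx i)).2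

/-- A site with a non-negligible expected number of particles is in the (enlarged) shape. -/
theorem outer_param (d : ℕ) {ε : ℝ} (hε : 0 < ε) : ∀ᶠ t : ℕ in atTop, ∀ x ∈ box d t,
    1 / ((t : ℝ) ^ 2 * (2 * t + 1) ^ d) ≤ 3 ^ t * W t x →
      toR x ∈ ((1 + ε) * t) • shapeSet d := by
  have hlog3 : 0 < Real.log 3 := Real.log_pos (by norm_num)
  filter_upwards [asym_log (((d + 2 : ℕ) : ℝ) * 2) (ε * Real.log 3) (by positivity),
    eventually_ge_atTop 1] with t h1 ht1 x hx h2
  have ht0 : (1 : ℝ) ≤ t := by exact_mod_cast ht1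
  have htpos : (0 : ℝ) < t := by linarith
  have h3 := W_upper (by omega) hx
  have hxb := mem_box.1 hx
  have hv : ∀ i, |((x i : ℤ) : ℝ) / t| ≤ 1 := by
    intro i
    rw [abs_div, abs_of_pos htpos, div_le_one htpos]
    exact_mod_cast hxb i
  -- take logarithms
  have h4 : Real.exp (-((d + 2 : ℕ) * Real.log (2 * t + 1))) ≤
      Real.exp (t * Real.log 3 - t * ∑ i, I (x i / t)) := by
    calc Real.exp (-((d + 2 : ℕ) * Real.log (2 * t + 1))) = 1 / (2 * (t : ℝ) + 1) ^ (d + 2) := by
          rw [pow_eq_exp, Real.exp_neg, one_div]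
      _ ≤ 1 / ((t : ℝ) ^ 2 * (2 * t + 1) ^ d) := by
          apply one_div_le_one_div_of_le (by positivity)
          have h5 : (t : ℝ) ^ 2 ≤ (2 * (t : ℝ) + 1) ^ 2 := by gcongr; linarith
          calc (t : ℝ) ^ 2 * (2 * t + 1) ^ d ≤ (2 * (t : ℝ) + 1) ^ 2 * (2 * t + 1) ^ d := by gcongr
            _ = _ := by ring
      _ ≤ 3 ^ t * W t x := h2
      _ ≤ 3 ^ t * Real.exp (-(t * ∑ i, I (x i / t))) := by gcongr
      _ = Real.exp (t * Real.log 3 - t * ∑ i, I (x i / t)) := by
          rw [sub_eq_add_neg, Real.exp_add, Real.exp_nat_mul, Real.exp_log (by norm_num)]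
  rw [Real.exp_le_exp] at h4
  have h5 : t * ∑ i, I (x i / t) ≤ (1 + ε) * (t * Real.log 3) := by
    have h6 := mul_le_mul_of_nonneg_left (log_two_mul_add_one ht1)
      (Nat.cast_nonneg (α := ℝ) (d + 2))
    have h7 : ε * Real.log 3 * (t : ℝ) ^ (3 / 4 : ℝ) ≤ ε * Real.log 3 * t :=
      mul_le_mul_of_nonneg_left (rpow_le_self ht1) (by positivity)
    linarith
  have h6 : ∑ i, I (x i / t) ≤ (1 + ε) * Real.log 3 := by
    have h7 : (t : ℝ) * ∑ i, I (x i / t) ≤ t * ((1 + ε) * Real.log 3) := by linarith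
    exact le_of_mul_le_mul_left h7 htpos
  rw [Set.mem_smul_set_iff_inv_smul_mem₀ (by positivity)]
  have h8 : ∀ i, (((1 + ε) * t)⁻¹ • toR x) i = (1 + ε)⁻¹ * (x i / t) := by
    intro i
    simp only [Pi.smul_apply, smul_eq_mul, toR, mul_inv]
    ring
  have h9 : (1 + ε)⁻¹ ≤ 1 := inv_le_one_of_one_le₀ (by linarith)
  constructor
  · intro i
    rw [h8, abs_mul, abs_of_pos (by positivity)]
    calc (1 + ε)⁻¹ * |((x i : ℤ) : ℝ) / t| ≤ 1 * 1 := by gcongr; exact hv i
      _ = 1 := one_mul 1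
  · calc ∑ i, I ((((1 + ε) * t)⁻¹ • toR x) i) ≤ ∑ i, (1 + ε)⁻¹ * I (x i / t) := by
          apply Finset.sum_le_sum
          intro i _
          rw [h8]
          exact I_scale (by positivity) h9 (hv i)
      _ = (1 + ε)⁻¹ * ∑ i, I (x i / t) := by rw [Finset.mul_sum]
      _ ≤ (1 + ε)⁻¹ * ((1 + ε) * Real.log 3) := by gcongr
      _ = Real.log 3 := by
          have : 1 + ε ≠ 0 := by positivity
          field_simp

/-- A site in the (reduced) shape has a large expected number of particles nearby, at an earlier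
time, even for a slightly smaller mean number of children. -/
theorem inner_param (d M : ℕ) {ε m : ℝ} (hε : 0 < ε) (hε1 : ε < 1) (hm0 : 0 < m)
    (hm : (1 - ε / 4) * Real.log 3 ≤ Real.log m) : ∀ᶠ n : ℕ in atTop, ∀ x : Site d,
    toR x ∈ ((1 - ε) * n) • shapeSet d → ∀ y : Site d,
      (∀ i, |y i| ≤ ((M * Nat.sqrt n : ℕ) : ℤ)) →
      ((2 * Nat.sqrt n + 1 : ℝ) ^ d) ^ ((n - M * Nat.sqrt n) / Nat.sqrt n) ≤
        m ^ ((n - M * Nat.sqrt n) / Nat.sqrt n * Nat.sqrt n) *
        W ((n - M * Nat.sqrt n) / Nat.sqrt n * Nat.sqrt n) (x + y) := by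
  have hlog3 : 0 < Real.log 3 := Real.log_pos (by norm_num)
  obtain ⟨r, hr, hball⟩ := exists_radius d
  obtain ⟨C, hC⟩ := exists_nat_gt ((2 / ε) * ((M + 1) / r + (M + 1)))
  filter_upwards [asym_base (10 * d / (ε / 8 * Real.log 3)), sqrt_mul_le C,
    sqrt_mul_le (2 * (M + 1)), eventually_ge_atTop 1] with n h1 h2 h2' hn1 x hx y hy
  have hn0 : (1 : ℝ) ≤ n := by exact_mod_cast hn1
  have hnpos : (0 : ℝ) < n := by linarith
  set L := Nat.sqrt n with hL
  set k := (n - M * L) / L with hk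
  have hL1 : 1 ≤ L := by
    rw [hL, Nat.le_sqrt]
    omega
  have hL1' : (1 : ℝ) ≤ L := by exact_mod_cast hL1
  set N := k * L with hN
  have hN1 : N ≤ n - M * L := Nat.div_mul_le_self _ _
  have hN2 : n < N + (M + 1) * L := by
    have h3 : n - M * L < k * L + L := Nat.lt_div_mul_add (a := n - M * L) (b := L) (by omega)
    have h4 : (M + 1) * L = M * L + L := by ring
    omega
  have hN3 : n ≤ 2 * N := by
    have h4 : 2 * (M + 1) * L = 2 * ((M + 1) * L) := by ring
    omega
  have hNpos : 0 < N := by omega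
  have hNpos' : (0 : ℝ) < N := by exact_mod_cast hNpos
  have hN2' : (n : ℝ) < N + (M + 1) * L := by exact_mod_cast hN2
  have hN3' : (n : ℝ) ≤ 2 * N := by exact_mod_cast hN3
  have h2r : (C : ℝ) * L ≤ n := by exact_mod_cast h2
  -- position of `x + y`
  have hy2 : toR y ∈ ((M + 1) * L / r : ℝ) • shapeSet d := by
    apply small_mem_smul hball (by positivity)
    intro i
    have h3 : |((y i : ℤ) : ℝ)| ≤ M * L := by exact_mod_cast hy i
    calc |toR y i| ≤ M * L := h3
      _ ≤ (M + 1) * L := by gcongr; linarith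
      _ = (M + 1) * L / r * r := by field_simp
  have hadd : toR (x + y) = toR x + toR y := by
    ext i
    simp [toR]
  have hxy : toR (x + y) ∈ ((1 - ε / 2) * N) • shapeSet d := by
    rw [hadd]
    apply smul_shape_mono _ _ (add_mem_smul _ _ hx hy2)
    · have : 0 ≤ 1 - ε := by linarith
      positivity
    · have h3 : (2 / ε) * ((M + 1) / r + (M + 1)) * L ≤ n := by
        calc (2 / ε) * ((M + 1) / r + (M + 1)) * L ≤ C * L := by gcongr
          _ ≤ n := h2r
      have h4 : ((M + 1) / r + (M + 1)) * L ≤ ε / 2 * n := by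
        calc ((M + 1) / r + (M + 1)) * (L : ℝ)
            = ε / 2 * ((2 / ε) * ((M + 1) / r + (M + 1)) * L) := by field_simp
          _ ≤ ε / 2 * n := by gcongr
      have h5 : (1 - ε / 2) * (n : ℝ) - (M + 1) * L ≤ (1 - ε / 2) * N := by
        have h6 : (1 - ε / 2) * (n - N) ≤ 1 * ((M + 1) * L : ℝ) := by
          apply mul_le_mul (by linarith) (by linarith) _ (by norm_num)
          have : N ≤ n := by omega
          have h7 : (N : ℝ) ≤ n := by exact_mod_cast this
          linarith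
        linarith
      have h7 : (M + 1) * (L : ℝ) / r = (M + 1) / r * L := by ring
      rw [h7]
      linarith
    · have : 0 ≤ 1 - ε := by linarith
      positivity
    · positivity
  obtain ⟨a, ha, hax⟩ := hxy
  have hzi : ∀ i, (((x + y) i : ℤ) : ℝ) / N = (1 - ε / 2) * a i := by
    intro i
    have h3 : ((1 - ε / 2) * (N : ℝ)) * a i = (((x + y) i : ℤ) : ℝ) := congrFun hax i
    rw [← h3]
    field_simp
  have hε2 : 0 ≤ 1 - ε / 2 := by linarith
  have hbox : x + y ∈ box d N := by
    rw [mem_box]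
    intro i
    have h3 : |(((x + y) i : ℤ) : ℝ) / N| ≤ 1 := by
      rw [hzi, abs_mul, abs_of_nonneg hε2]
      calc (1 - ε / 2) * |a i| ≤ 1 * 1 :=
            mul_le_mul (by linarith) (ha.1 i) (abs_nonneg _) (by norm_num)
        _ = 1 := one_mul 1
    rw [abs_div, abs_of_pos hNpos', div_le_one hNpos'] at h3
    exact_mod_cast h3
  have hI : ∑ i, I (((x + y) i : ℤ) / N) ≤ (1 - ε / 2) * Real.log 3 := by
    calc ∑ i, I (((x + y) i : ℤ) / N) ≤ ∑ i, (1 - ε / 2) * I (a i) := by
          apply Finset.sum_le_sum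
          intro i _
          rw [hzi]
          exact I_scale hε2 (by linarith) (ha.1 i)
      _ = (1 - ε / 2) * ∑ i, I (a i) := by rw [Finset.mul_sum]
      _ ≤ _ := by gcongr; exact ha.2
  have hW := W_lower hNpos hbox
  -- the factors
  have hlog : 0 ≤ Real.log n := Real.log_nonneg hn0
  set S : ℝ := √(n : ℝ) * (1 + Real.log n) with hS
  have hsq1 : (1 : ℝ) ≤ √(n : ℝ) := by
    rw [Real.one_le_sqrt]
    exact hn0
  have f1 : ((2 * L + 1 : ℝ) ^ d) ^ k ≤ Real.exp (8 * d * S) := by
    rw [← pow_mul, ← Real.exp_log (show (0 : ℝ) < 2 * L + 1 by positivity), ← Real.exp_nat_mul]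
    apply Real.exp_le_exp.2
    have hk4 : (k : ℝ) ≤ 4 * L := by
      have h5 : k * L ≤ n := by omega
      have h6 : k * L < (L + 1) * (L + 1) := lt_of_le_of_lt h5 (Nat.lt_succ_sqrt n)
      have h7 : k ≤ 4 * L := by
        by_contra hc
        push Not at hc
        have h8 : (4 * L + 1) * L ≤ k * L := Nat.mul_le_mul_right _ hc
        nlinarith
      exact_mod_cast h7
    have h5 : Real.log (2 * L + 1) ≤ 2 * (1 + Real.log n) := by
      refine le_trans ?_ (log_two_mul_add_one hn1)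
      apply Real.log_le_log (by positivity)
      have : (L : ℝ) ≤ n := by exact_mod_cast Nat.sqrt_le_self n
      linarith
    have h6 : 0 ≤ Real.log (2 * L + 1) := Real.log_nonneg (by linarith)
    have hsqrt : (L : ℝ) ≤ √(n : ℝ) := sqrt_le_real n
    push_cast
    calc (d : ℝ) * k * Real.log (2 * L + 1) ≤ d * (4 * √(n : ℝ)) * (2 * (1 + Real.log n)) := by
          gcongr
          linarith
      _ = 8 * d * S := by rw [hS]; ring
  have f2 : (2 * (N : ℝ) + 1) ^ d ≤ Real.exp (2 * d * S) := by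
    rw [pow_eq_exp]
    apply Real.exp_le_exp.2
    have h5 : Real.log (2 * N + 1) ≤ 2 * (1 + Real.log n) := by
      refine le_trans ?_ (log_two_mul_add_one hn1)
      apply Real.log_le_log (by positivity)
      have h7 : N ≤ n := by omega
      have : (N : ℝ) ≤ n := by exact_mod_cast h7
      linarith
    calc (d : ℝ) * Real.log (2 * N + 1) ≤ d * (2 * (1 + Real.log n)) := by gcongr
      _ ≤ d * (2 * S) := by
        gcongr
        exact le_mul_of_one_le_left (by positivity) hsq1
      _ = _ := by ring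
  have f3 : 10 * d * S ≤ N * (ε / 4 * Real.log 3) := by
    have hc : 0 < ε / 8 * Real.log 3 := by positivity
    have h5 : 10 * d * S ≤ (ε / 8 * Real.log 3) * (n : ℝ) ^ (3 / 4 : ℝ) := by
      calc 10 * d * S = (ε / 8 * Real.log 3) * (10 * d / (ε / 8 * Real.log 3) * S) := by
            field_simp
        _ ≤ _ := by gcongr
    have h6 : (ε / 8 * Real.log 3) * (n : ℝ) ^ (3 / 4 : ℝ) ≤ (ε / 8 * Real.log 3) * n := by
      gcongr
      exact rpow_le_self hn1
    have h7 : (ε / 8 * Real.log 3) * n ≤ (ε / 8 * Real.log 3) * (2 * N) := by gcongr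
    linarith
  have hmN : Real.exp (N * ((1 - ε / 4) * Real.log 3)) ≤ m ^ N := by
    rw [← Real.exp_log hm0, ← Real.exp_nat_mul]
    apply Real.exp_le_exp.2
    gcongr
  calc ((2 * L + 1 : ℝ) ^ d) ^ k ≤ Real.exp (8 * d * S) := f1
    _ = Real.exp (10 * d * S) / Real.exp (2 * d * S) := by
        rw [← Real.exp_sub]
        congr 1
        ring
    _ ≤ Real.exp (N * (ε / 4 * Real.log 3)) / (2 * N + 1) ^ d := by gcongr
    _ = Real.exp (N * ((1 - ε / 4) * Real.log 3)) *
        (Real.exp (-(N * ((1 - ε / 2) * Real.log 3))) / (2 * N + 1) ^ d) := by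
        rw [← mul_div_assoc, ← Real.exp_add]
        congr 2
        ring
    _ ≤ m ^ N * (Real.exp (-(N * ∑ i, I (((x + y) i : ℤ) / N))) / (2 * N + 1) ^ d) := by
        gcongr
    _ ≤ m ^ N * W N (x + y) := by gcongr

end Pool.Agent.R951.BRW
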