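import Pool.Agent.R951.BRW.Race2
import Pool.Agent.R951.BRW.ShapeSet

/-!
# The shape theorem for nice laws
-/

set_option autoImplicit false

open MeasureTheory Filter ProbabilityTheory
open scoped ENNReal Pointwise

namespace Pool.Agent.R951.BRW

variable {d : ℕ}

theorem visited_of_occ {ω : Omega d} {n t : ℕ} {x : Site d} (htn : t ≤ n)
    (h : ω ∈ occ Set.univ t x) : x ∈ visited ω 0 n := by
  obtain ⟨v, h1, h2, h3⟩ := (occ_iff _ _ _).1 h
  exact ⟨v, h2, by omega, by rw [zero_add]; exact h3⟩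

theorem occ_of_visited {ω : Omega d} {n : ℕ} {x : Site d} (h : x ∈ visited ω 0 n) :
    ∃ t ≤ n, ω ∈ occ Set.univ t x := by
  obtain ⟨v, h1, h2, h3⟩ := h
  exact ⟨v.length, h2, (occ_iff _ _ _).2 ⟨v, rfl, h1, by rw [← h3, zero_add]⟩⟩

theorem ae_box {R : Law d} (hR : Nice R) :
    ∀ᵐ ω ∂(R.P), ∀ n : ℕ, ∀ x ∉ box d n, ω ∉ occ Set.univ n x := by
  rw [ae_all_iff]
  intro n
  rw [ae_all_iff]
  intro x
  by_cases hx : x ∈ box d n
  · filter_upwards with ω h
    exact absurd hx h
  · filter_upwards [measure_eq_zero_iff_ae_notMem.1 (occ_box (n := n) hR hx)] with ω hω _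
    exact hω

/-- Almost surely, for all large `t`, all sites occupied at time `t` have a non-negligible expected
number of particles. -/
theorem outer_ae {R : Law d} (hR : Nice R) : ∀ᵐ ω ∂(R.P), ∀ᶠ t : ℕ in atTop, ∀ x ∈ box d t,
    ω ∈ occ Set.univ t x → 1 / ((t : ℝ) ^ 2 * (2 * t + 1) ^ d) ≤ 3 ^ t * W t x := by
  have key : ∀ᵐ ω ∂(R.P), ∀ᶠ t : ℕ in atTop, ω ∉ ({ω | ∃ x ∈ box d t,
      3 ^ t * W t x < 1 / ((t : ℝ) ^ 2 * (2 * t + 1) ^ d) ∧ ω ∈ occ Set.univ t x} :
        Set (Omega d)) := by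
    apply borel_cantelli
    filter_upwards [eventually_ge_atTop 1] with t ht1
    have ht0 : (1 : ℝ) ≤ t := by exact_mod_cast ht1
    have hx : ∀ x ∈ box d t, R.P {ω | 3 ^ t * W t x < 1 / ((t : ℝ) ^ 2 * (2 * t + 1) ^ d) ∧
        ω ∈ occ Set.univ t x} ≤ ENNReal.ofReal (1 / ((t : ℝ) ^ 2 * (2 * t + 1) ^ d)) := by
      intro x _
      by_cases hthr : 3 ^ t * W t x < 1 / ((t : ℝ) ^ 2 * (2 * t + 1) ^ d)
      · refine (measure_mono fun ω hω => hω.2).trans ((occ_upper hR Set.univ t x).trans ?_)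
        rw [setLIntegral_univ, hR.mean]
        have h1 : (3 : ℝ≥0∞) ^ t * ENNReal.ofReal (W t x) = ENNReal.ofReal (3 ^ t * W t x) := by
          rw [ENNReal.ofReal_mul (by positivity), ENNReal.ofReal_pow (by norm_num)]
          norm_num
        rw [h1]
        exact ENNReal.ofReal_le_ofReal hthr.le
      · have h5 : {ω : Omega d | 3 ^ t * W t x < 1 / ((t : ℝ) ^ 2 * (2 * t + 1) ^ d) ∧
            ω ∈ occ Set.univ t x} = ∅ := by
          ext ω
          simp only [Set.mem_ofPred_eq, Set.mem_empty_iff_false, iff_false, not_and]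
          intro h
          exact absurd h hthr
        rw [h5, measure_empty]
        exact zero_le
    have h5 : ({ω | ∃ x ∈ box d t,
        3 ^ t * W t x < 1 / ((t : ℝ) ^ 2 * (2 * t + 1) ^ d) ∧ ω ∈ occ Set.univ t x} :
          Set (Omega d)) ⊆ ⋃ x ∈ box d t, {ω : Omega d | 3 ^ t * W t x <
          1 / ((t : ℝ) ^ 2 * (2 * t + 1) ^ d) ∧ ω ∈ occ Set.univ t x} := by
      rintro ω ⟨x, hx, h⟩
      rw [Set.mem_iUnion₂]
      exact ⟨x, hx, h⟩
    refine (measure_mono h5).trans ((union_box_le t _ _ hx).trans ?_)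
    apply ENNReal.ofReal_le_ofReal
    have h6 : (2 * (t : ℝ) + 1) ^ d * (1 / ((t : ℝ) ^ 2 * (2 * t + 1) ^ d)) = 1 / (t : ℝ) ^ 2 := by
      field_simp
    rw [h6]
    gcongr
    norm_num
  filter_upwards [key] with ω hω
  filter_upwards [hω] with t ht x hx hocc
  by_contra hc
  exact ht ⟨x, hx, not_le.1 hc, hocc⟩

theorem outer_visited {ω : Omega d} (h1 : ∀ n : ℕ, ∀ x ∉ box d n, ω ∉ occ Set.univ n x)
    (h2 : ∀ᶠ t : ℕ in atTop, ∀ x ∈ box d t,
      ω ∈ occ Set.univ t x → 1 / ((t : ℝ) ^ 2 * (2 * t + 1) ^ d) ≤ 3 ^ t * W t x)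
    {ε : ℝ} (hε : 0 < ε) :
    ∀ᶠ n : ℕ in atTop, ∀ x ∈ visited ω 0 n, toR x ∈ ((1 + ε) * n) • shapeSet d := by
  obtain ⟨N, hN⟩ := eventually_atTop.1 (h2.and (outer_param d hε))
  obtain ⟨r, hr, hball⟩ := exists_radius d
  obtain ⟨C, hC⟩ := exists_nat_gt (N / r)
  filter_upwards [eventually_ge_atTop C, eventually_ge_atTop 1] with n hn hn1 x hx
  obtain ⟨t, htn, hocc⟩ := occ_of_visited hx
  have hxb : x ∈ box d t := by
    by_contra hc
    exact h1 t x hc hocc
  have hnpos : (0 : ℝ) < n := by exact_mod_cast hn1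
  by_cases htN : N ≤ t
  · obtain ⟨h3, h4⟩ := hN t htN
    refine smul_shape_mono (by positivity) ?_ (h4 x hxb (h3 x hxb hocc))
    have : (t : ℝ) ≤ n := by exact_mod_cast htn
    gcongr
  · apply small_mem_smul hball (by positivity)
    intro i
    have h3 : |((x i : ℤ) : ℝ)| ≤ t := by exact_mod_cast mem_box.1 hxb i
    have h4 : (t : ℝ) ≤ N := by exact_mod_cast (not_le.1 htN).le
    have h5 : (C : ℝ) ≤ n := by exact_mod_cast hn
    have h6 : (N : ℝ) ≤ n * r := by
      rw [div_lt_iff₀ hr] at hC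
      calc (N : ℝ) ≤ C * r := hC.le
        _ ≤ n * r := by gcongr
    calc |toR x i| ≤ t := h3
      _ ≤ n * r := h4.trans h6
      _ ≤ (1 + ε) * n * r := by
        have : n * r ≤ (1 + ε) * (n * r) := le_mul_of_one_le_left (by positivity) (by linarith)
        linarith

theorem outer_cubes {ω : Omega d}
    (h : ∀ ε : ℝ, 0 < ε → ∀ᶠ n : ℕ in atTop, ∀ x ∈ visited ω 0 n,
      toR x ∈ ((1 + ε) * n) • shapeSet d) {ε : ℝ} (hε : 0 < ε) :
    ∀ᶠ n : ℕ in atTop, (1 / (n : ℝ)) • cubes (visited ω 0 n) ⊆ (1 + ε) • shapeSet d := by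
  obtain ⟨r, hr, hball⟩ := exists_radius d
  obtain ⟨C, hC⟩ := exists_nat_gt (1 / (ε * r))
  filter_upwards [h (ε / 2) (by positivity), eventually_ge_atTop C, eventually_ge_atTop 1]
    with n h1 hn hn1
  have hnpos : (0 : ℝ) < n := by exact_mod_cast hn1
  rintro _ ⟨y, ⟨x, hx, hxy⟩, rfl⟩
  have h2 := h1 x hx
  have h3 : y - toR x ∈ (ε / 2 * n) • shapeSet d := by
    apply small_mem_smul hball (by positivity)
    intro i
    have h4 := hxy i
    have h5 : (C : ℝ) ≤ n := by exact_mod_cast hn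
    rw [div_lt_iff₀ (by positivity)] at hC
    have h6 : 1 / 2 ≤ ε / 2 * n * r := by
      have : (C : ℝ) * (ε * r) ≤ n * (ε * r) := by gcongr
      linarith
    have h7 : |y i - x i| ≤ 1 / 2 := by
      rw [abs_le]
      constructor <;> linarith [h4.1, h4.2]
    exact h7.trans h6
  have h4 := add_mem_smul (by positivity) (by positivity) h2 h3
  rw [show toR x + (y - toR x) = y by abel,
    show (1 + ε / 2) * (n : ℝ) + ε / 2 * n = n * (1 + ε) by ring, mul_smul] at h4
  obtain ⟨z, hz, hzy⟩ := h4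
  have h5 : (fun x => (1 / (n : ℝ)) • x) y = z := by
    simp only at hzy ⊢
    rw [← hzy, smul_smul]
    field_simp
    simp
  rw [h5]
  exact hz

/-- Almost surely, for all large `n`, all sites in the reduced shape are visited by time `n`. -/
theorem inner_ae {R : Law d} (hR : Nice R) {ε : ℝ} (hε : 0 < ε) (hε1 : ε < 1) :
    ∀ᵐ ω ∂(R.P), ∀ᶠ n : ℕ in atTop, ∀ x : Site d, toR x ∈ ((1 - ε) * n) • shapeSet d →
      x ∈ visited ω 0 n := by
  have hlog3 : 0 < Real.log 3 := Real.log_pos (by norm_num)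
  -- choose the truncation
  obtain ⟨M, hM2, hM⟩ : ∃ M : ℕ, 2 ≤ M ∧ Real.exp ((1 - ε / 4) * Real.log 3) < tm R M := by
    have h1 : Real.exp ((1 - ε / 4) * Real.log 3) < 3 := by
      conv_rhs => rw [← Real.exp_log (show (0 : ℝ) < 3 by norm_num)]
      rw [Real.exp_lt_exp]
      nlinarith
    have h2 := (tm_tendsto hR).eventually (lt_mem_nhds h1)
    obtain ⟨M, h3, h4⟩ := (h2.and (eventually_ge_atTop 2)).exists
    exact ⟨M, h4, h3⟩
  have htm : 0 < tm R M := (Real.exp_pos _).trans hM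
  have hm : (1 - ε / 4) * Real.log 3 ≤ Real.log (tm R M) := by
    rw [Real.le_log_iff_exp_le htm]
    exact hM.le
  have key : ∀ᵐ ω ∂(R.P), ∀ᶠ n : ℕ in atTop, ω ∉ ({ω | ∃ x ∈ box d n,
      toR x ∈ ((1 - ε) * n) • shapeSet d ∧ x ∉ visited ω 0 n} : Set (Omega d)) := by
    apply borel_cantelli
    filter_upwards [inner_param d M hε hε1 htm hm, asym_sum' d 1 one_pos, asym_exp,
      sqrt_mul_le M, eventually_ge_atTop 1] with n h1 h2 h3 h4 hn1
    set L := Nat.sqrt n with hL
    set k := (n - M * L) / L with hk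
    have hkL : k * L ≤ n - M * L := Nat.div_mul_le_self _ _
    have hx : ∀ x ∈ box d n, R.P {ω | toR x ∈ ((1 - ε) * n) • shapeSet d ∧
        x ∉ visited ω 0 n} ≤ ENNReal.ofReal (Real.exp (-(1 * (n : ℝ)))) := by
      intro x _
      by_cases hxs : toR x ∈ ((1 - ε) * n) • shapeSet d
      · have h5 : {ω : Omega d | toR x ∈ ((1 - ε) * n) • shapeSet d ∧ x ∉ visited ω 0 n} ⊆
            (occ Set.univ (k * L + M * L) x)ᶜ := by
          intro ω hω hocc
          exact hω.2 (visited_of_occ (by omega) hocc)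
        refine (measure_mono h5).trans ?_
        rw [compl_eq]
        apply ENNReal.ofReal_le_ofReal
        have h6 := whp hR (M := M) (L := L) (k := k) hM2 htm x (fun y hy => h1 x hxs y hy)
        refine h6.trans (Real.exp_le_exp.2 (neg_le_neg ?_))
        rw [one_mul, le_div_iff₀ (by positivity)]
        refine le_trans ?_ h3
        have h7 : (k : ℝ) * L ≤ n := by
          have : k * L ≤ n := by omega
          exact_mod_cast this
        gcongr
      · have h5 : {ω : Omega d | toR x ∈ ((1 - ε) * n) • shapeSet d ∧ x ∉ visited ω 0 n} = ∅ := by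
          ext ω
          simp only [Set.mem_ofPred_eq, Set.mem_empty_iff_false, iff_false, not_and]
          intro h
          exact absurd h hxs
        rw [h5, measure_empty]
        exact zero_le
    have h5 : ({ω | ∃ x ∈ box d n, toR x ∈ ((1 - ε) * n) • shapeSet d ∧ x ∉ visited ω 0 n} :
        Set (Omega d)) ⊆ ⋃ x ∈ box d n, {ω : Omega d | toR x ∈ ((1 - ε) * n) • shapeSet d ∧
          x ∉ visited ω 0 n} := by
      rintro ω ⟨x, hx, h⟩
      rw [Set.mem_iUnion₂]
      exact ⟨x, hx, h⟩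
    refine (measure_mono h5).trans ((union_box_le n _ _ hx).trans ?_)
    apply ENNReal.ofReal_le_ofReal
    refine h2.trans ?_
    gcongr
    norm_num
  filter_upwards [key] with ω hω
  filter_upwards [hω, eventually_ge_atTop 1] with n hn hn1 x hx
  by_contra hc
  apply hn
  refine ⟨x, ?_, hx, hc⟩
  rw [mem_box]
  intro i
  obtain ⟨a, ha, hax⟩ := hx
  have h3 : ((1 - ε) * (n : ℝ)) * a i = ((x i : ℤ) : ℝ) := congrFun hax i
  have h4 : |((x i : ℤ) : ℝ)| ≤ n := by
    rw [← h3, abs_mul, abs_mul, abs_of_nonneg (show 0 ≤ 1 - ε by linarith), Nat.abs_cast]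
    calc (1 - ε) * n * |a i| ≤ 1 * n * 1 := by
          gcongr
          · linarith
          · exact ha.1 i
      _ = n := by ring
  exact_mod_cast h4

theorem inner_cubes {ω : Omega d}
    (h : ∀ j : ℕ, ∀ᶠ n : ℕ in atTop, ∀ x : Site d,
      toR x ∈ ((1 - 1 / ((j : ℝ) + 2)) * n) • shapeSet d → x ∈ visited ω 0 n)
    {ε : ℝ} (hε : 0 < ε) (hε1 : ε < 1) :
    ∀ᶠ n : ℕ in atTop, (1 - ε) • shapeSet d ⊆ (1 / (n : ℝ)) • cubes (visited ω 0 n) := by
  obtain ⟨r, hr, hball⟩ := exists_radius d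
  obtain ⟨j, hj⟩ := exists_nat_gt (2 / ε)
  obtain ⟨C, hC⟩ := exists_nat_gt (1 / (ε * r))
  filter_upwards [h j, eventually_ge_atTop C, eventually_ge_atTop 1] with n h1 hn hn1 v hv
  have hnpos : (0 : ℝ) < n := by exact_mod_cast hn1
  have hj2 : 1 / ((j : ℝ) + 2) ≤ ε / 2 := by
    rw [div_lt_iff₀ hε] at hj
    rw [div_le_div_iff₀ (by positivity) (by norm_num)]
    linarith
  refine ⟨(n : ℝ) • v, ?_, ?_⟩
  · -- the site closest to `n v`
    set x : Site d := fun i => ⌈(n : ℝ) * v i - 1 / 2⌉ with hx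
    have hxi : ∀ i, (x i : ℝ) - 1 / 2 < n * v i ∧ n * v i ≤ x i + 1 / 2 := by
      intro i
      have h2 := Int.ceil_lt_add_one ((n : ℝ) * v i - 1 / 2)
      have h3 := Int.le_ceil ((n : ℝ) * v i - 1 / 2)
      rw [hx]
      constructor <;> linarith
    refine ⟨x, ?_, fun i => ?_⟩
    · apply h1
      have h2 : toR x - (n : ℝ) • v ∈ (ε / 2 * n) • shapeSet d := by
        apply small_mem_smul hball (by positivity)
        intro i
        have h4 := hxi i
        have h5 : (C : ℝ) ≤ n := by exact_mod_cast hn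
        rw [div_lt_iff₀ (by positivity)] at hC
        have h6 : 1 / 2 ≤ ε / 2 * n * r := by
          have : (C : ℝ) * (ε * r) ≤ n * (ε * r) := by gcongr
          linarith
        refine le_trans ?_ h6
        show |(x i : ℝ) - n * v i| ≤ 1 / 2
        rw [abs_le]
        constructor <;> linarith [h4.1, h4.2]
      have h3 : (n : ℝ) • v ∈ ((1 - ε) * n) • shapeSet d := by
        obtain ⟨a, ha, rfl⟩ := hv
        exact ⟨a, ha, by simp only [smul_smul]; rw [mul_comm]⟩
      have h4 := add_mem_smul (by have : 0 ≤ 1 - ε := by linarith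
                                  positivity) (by positivity) h3 h2
      rw [show (n : ℝ) • v + (toR x - (n : ℝ) • v) = toR x by abel,
        show (1 - ε) * (n : ℝ) + ε / 2 * n = (1 - ε / 2) * n by ring] at h4
      refine smul_shape_mono ?_ ?_ h4
      · have : 0 ≤ 1 - ε / 2 := by linarith
        positivity
      · gcongr
    · exact hxi i
  · simp only [smul_smul]
    field_simp
    simp

/-- The shape theorem for nice laws. -/
theorem isShape {R : Law d} (hR : Nice R) : IsShape R (shapeSet d) where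
  convex := convex_shapeSet
  compact := compact_shapeSet
  zero_mem := zero_mem_interior
  shape := by
    have h1 : ∀ᵐ ω ∂(R.P), ∀ j : ℕ, ∀ᶠ n : ℕ in atTop, ∀ x : Site d,
        toR x ∈ ((1 - 1 / ((j : ℝ) + 2)) * n) • shapeSet d → x ∈ visited ω 0 n := by
      rw [ae_all_iff]
      intro j
      apply inner_ae hR (by positivity)
      rw [div_lt_one (by positivity)]
      have : (0 : ℝ) ≤ j := by positivity
      linarith
    filter_upwards [h1, ae_box hR, outer_ae hR] with ω h2 h3 h4 ε hε hε1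
    exact (inner_cubes h2 hε hε1).and
      (outer_cubes (fun ε hε => outer_visited h3 h4 hε) hε)

end Pool.Agent.R951.BRW
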