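import Pool.Agent.R951.BRW.Defs

/-!
# The random walk kernel

The coordinates are independent and each of them makes a step `-1`, `0`, `1` with probabilities
`1/4`, `1/2`, `1/4`.
-/

set_option autoImplicit false

open Finset

namespace Pool.Agent.R951.BRW

variable {d : ℕ}

/-- The law of one coordinate of a step. -/
noncomputable def w₁ (k : ℤ) : ℝ := if k = 0 then 1 / 2 else 1 / 4

/-- The weight of a step. -/
noncomputable def wt (y : Site d) : ℝ := ∏ i, w₁ (y i)

/-- The set of steps `{-1, 0, 1}^d`. -/
def steps (d : ℕ) : Finset (Site d) := Fintype.piFinset fun _ => ({-1, 0, 1} : Finset ℤ)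

/-- The average of `g (x - Y)` over a step `Y`. -/
noncomputable def avg (g : Site d → ℝ) (x : Site d) : ℝ := ∑ y ∈ steps d, wt y * g (x - y)

theorem w₁_pos (k : ℤ) : 0 < w₁ k := by
  unfold w₁
  split_ifs <;> norm_num

theorem w₁_ge (k : ℤ) : 1 / 4 ≤ w₁ k := by
  unfold w₁
  split_ifs <;> norm_num

theorem wt_pos (y : Site d) : 0 < wt y := prod_pos fun _ _ => w₁_pos _

theorem wt_ge (y : Site d) : (1 / 4 : ℝ) ^ d ≤ wt y := by
  unfold wt
  calc (1 / 4 : ℝ) ^ d = ∏ _i : Fin d, (1 / 4 : ℝ) := by simp
    _ ≤ _ := prod_le_prod (fun _ _ => by norm_num) (fun i _ => w₁_ge _)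

theorem sum_wt : ∑ y ∈ steps d, wt y = 1 := by
  unfold steps wt
  rw [← prod_univ_sum]
  have : ∑ k ∈ ({-1, 0, 1} : Finset ℤ), w₁ k = 1 := by
    rw [sum_insert (by decide), sum_insert (by decide), sum_singleton]
    unfold w₁
    norm_num
  simp [this]

theorem mem_steps {y : Site d} : y ∈ steps d ↔ ∀ i, |y i| ≤ 1 := by
  unfold steps
  rw [Fintype.mem_piFinset]
  apply forall_congr'
  intro i
  rw [abs_le]
  simp only [mem_insert, mem_singleton]
  omega

theorem avg_mono {g h : Site d → ℝ} {x : Site d} (H : ∀ y ∈ steps d, g (x - y) ≤ h (x - y)) :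
    avg g x ≤ avg h x :=
  sum_le_sum fun y hy => mul_le_mul_of_nonneg_left (H y hy) (wt_pos y).le

theorem avg_nonneg {g : Site d → ℝ} {x : Site d} (H : ∀ y, 0 ≤ g y) : 0 ≤ avg g x :=
  sum_nonneg fun y _ => mul_nonneg (wt_pos y).le (H _)

theorem avg_const (c : ℝ) (x : Site d) : avg (fun _ => c) x = c := by
  unfold avg
  rw [← sum_mul, sum_wt, one_mul]

theorem avg_le_one {g : Site d → ℝ} {x : Site d} (H : ∀ y, g y ≤ 1) : avg g x ≤ 1 := by
  rw [← avg_const 1 x]
  exact avg_mono fun y _ => H _

theorem avg_smul (c : ℝ) (g : Site d → ℝ) (x : Site d) :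
    avg (fun y => c * g y) x = c * avg g x := by
  unfold avg
  rw [mul_sum]
  exact sum_congr rfl fun y _ => by ring

theorem avg_one_sub (g : Site d → ℝ) (x : Site d) :
    avg (fun y => 1 - g y) x = 1 - avg g x := by
  unfold avg
  simp only [mul_sub, mul_one, sum_sub_distrib, sum_wt]

/-- `W n x`: the probability that the walk is at `x` at time `n`. -/
noncomputable def W : ℕ → Site d → ℝ
  | 0, x => if x = 0 then 1 else 0
  | n + 1, x => avg (W n) x

theorem W_nonneg (n : ℕ) (x : Site d) : 0 ≤ W n x := by
  induction n generalizing x with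
  | zero => unfold W; split_ifs <;> norm_num
  | succ n ih => exact avg_nonneg ih

/-- The cube `{-n, …, n}^d`. -/
noncomputable def box (d n : ℕ) : Finset (Site d) := Fintype.piFinset fun _ => Finset.Icc (-(n : ℤ)) n

theorem mem_box {n : ℕ} {y : Site d} : y ∈ box d n ↔ ∀ i, |y i| ≤ n := by
  unfold box
  rw [Fintype.mem_piFinset]
  apply forall_congr'
  intro i
  rw [abs_le, mem_Icc]

theorem card_box (n : ℕ) : (box d n).card = (2 * n + 1) ^ d := by
  unfold box
  rw [Fintype.card_piFinset]
  simp only [Int.card_Icc, prod_const, card_univ, Fintype.card_fin]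
  congr 1
  omega

theorem W_eq_zero {n : ℕ} {x : Site d} (h : x ∉ box d n) : W n x = 0 := by
  induction n generalizing x with
  | zero =>
    unfold W
    rw [if_neg]
    rintro rfl
    exact h (mem_box.2 (by simp))
  | succ n ih =>
    show avg (W n) x = 0
    apply sum_eq_zero
    intro y hy
    rw [ih, mul_zero]
    intro h2
    apply h
    rw [mem_box] at h2 ⊢
    rw [mem_steps] at hy
    intro i
    have h3 := h2 i
    have h4 := hy i
    rw [Pi.sub_apply] at h3
    rw [abs_le] at *
    push_cast
    constructor <;> linarith [h3.1, h3.2, h4.1, h4.2]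

/-- The Chapman–Kolmogorov equation. -/
theorem W_add (n k : ℕ) (x : Site d) :
    W (n + k) x = ∑ z ∈ box d n, W n z * W k (x - z) := by
  induction n generalizing x with
  | zero =>
    have hb : box d 0 = {0} := by
      ext y
      rw [mem_box, mem_singleton]
      constructor
      · intro h
        ext i
        have := h i
        simpa using this
      · rintro rfl
        simp
    rw [hb, sum_singleton]
    simp [W]
  | succ n ih =>
    have h0 : n + 1 + k = (n + k) + 1 := by omega
    rw [h0]
    show avg (W (n + k)) x = ∑ z ∈ box d (n + 1), avg (W n) z * W k (x - z)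
    unfold avg
    simp only [ih, mul_sum, sum_mul]
    rw [sum_comm (s := box d (n + 1))]
    apply sum_congr rfl
    intro y hy
    apply sum_bij_ne_zero (fun z _ _ => z + y)
    · intro z hz _
      rw [mem_box] at hz ⊢
      rw [mem_steps] at hy
      intro i
      have h3 := hz i
      have h4 := hy i
      rw [Pi.add_apply]
      rw [abs_le] at *
      push_cast
      constructor <;> linarith [h3.1, h3.2, h4.1, h4.2]
    · intro a _ _ b _ _ h
      exact add_right_cancel h
    · intro b hb hne
      refine ⟨b - y, ?_, ?_, by simp⟩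
      · by_contra hc
        rw [W_eq_zero hc] at hne
        simp at hne
      · intro h
        apply hne
        rw [show x - y - (b - y) = x - b by abel] at h
        rw [← h]
        ring
    · intro z _ _
      rw [show z + y - y = z by abel, show x - (z + y) = x - y - z by abel]
      ring

theorem W_step (n : ℕ) (x y : Site d) (hy : y ∈ steps d) :
    (1 / 4 : ℝ) ^ d * W n x ≤ W (n + 1) (x + y) := by
  show _ ≤ avg (W n) (x + y)
  calc (1 / 4 : ℝ) ^ d * W n x ≤ wt y * W n (x + y - y) := by
        rw [show x + y - y = x by abel]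
        exact mul_le_mul_of_nonneg_right (wt_ge y) (W_nonneg n x)
    _ ≤ _ := single_le_sum (f := fun y' => wt y' * W n (x + y - y'))
        (fun y' _ => mul_nonneg (wt_pos y').le (W_nonneg _ _)) hy

/-- A displacement of norm at most `s` can be made in `s` steps. -/
theorem W_shift (n s : ℕ) (x y : Site d) (hy : ∀ i, |y i| ≤ s) :
    ((1 / 4 : ℝ) ^ d) ^ s * W n x ≤ W (n + s) (x + y) := by
  induction s generalizing y with
  | zero =>
    have : y = 0 := by
      ext i
      have := hy i
      simpa using this
    subst this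
    simp
  | succ s ih =>
    set y₁ : Site d := fun i => (y i).sign with hy₁
    have h1 : ∀ i, |(y - y₁) i| ≤ s := by
      intro i
      have h2 := hy i
      rw [Pi.sub_apply, hy₁]
      simp only
      rcases lt_trichotomy (y i) 0 with h | h | h
      · rw [Int.sign_eq_neg_one_of_neg h]
        rw [abs_le] at *
        push_cast at h2
        constructor <;> linarith [h2.1, h2.2]
      · rw [h]
        simp
      · rw [Int.sign_eq_one_of_pos h]
        rw [abs_le] at *
        push_cast at h2
        constructor <;> linarith [h2.1, h2.2]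
    have h2 : y₁ ∈ steps d := by
      rw [mem_steps]
      intro i
      rw [hy₁]
      simp only
      rcases lt_trichotomy (y i) 0 with h | h | h
      · rw [Int.sign_eq_neg_one_of_neg h]
        simp
      · rw [h]
        simp
      · rw [Int.sign_eq_one_of_pos h]
        simp
    have h3 := W_step (n + s) (x + (y - y₁)) y₁ h2
    rw [show x + (y - y₁) + y₁ = x + y by abel] at h3
    refine le_trans ?_ h3
    rw [pow_succ', mul_assoc]
    exact mul_le_mul_of_nonneg_left (ih (y - y₁) h1) (by positivity)

end Pool.Agent.R951.BRW
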